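import Mathlib

/-!
# MP_644796_gt : real parts of zeros of Alexander polynomials of alternating knots are unbounded

We show that the answer to Q1 is *no*: for every real number `K` there is an alternating knot
whose Alexander polynomial has a zero `z` (in fact a real one) with `K < Re z`.

The knots are the alternating Montesinos knots `M(2; 1/2, 2/3, ..., 2/3)` with `m = n + 1` tangles
`2/3`; their Alexander polynomial is, up to units,
`(t^2 - t + 1)^(m-1) * ((t^2 - 3 t + 1) (t^2 - t + 1) - m t (t - 1)^2)`,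
which has a real zero larger than `m`.
-/

namespace Pool.Agent.V11193.AlternatingZeros

open Polynomial

/-! ## Knot diagrams and the Alexander polynomial -/

/-- An oriented link diagram (on a closed oriented surface), given combinatorially.

`C` is the finite set of crossings.  At a crossing `c` the four half-edges are
`(c,0), (c,1), (c,2), (c,3)`, listed counterclockwise; the half-edges `(c,0)` and `(c,2)` form the
strand passing *under*, the half-edges `(c,1)` and `(c,3)` form the strand passing *over*.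
The involution `e` glues the half-edges in pairs, the pairs being the edges of the diagram.
`out x = true` means that the half-edge `x` points away from its crossing in the orientation of
the link; so each edge has exactly one outgoing and one incoming end, and each strand through a
crossing enters it along one half-edge and leaves along the opposite one. -/
structure Diagram where
  /-- the crossings -/
  C : Type
  [fintypeC : Fintype C]
  [decEqC : DecidableEq C]
  /-- gluing of the half-edges to edges -/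
  e : C × Fin 4 → C × Fin 4
  e_e : ∀ x, e (e x) = x
  /-- orientation -/
  out : C × Fin 4 → Bool
  out_e : ∀ x, out (e x) = !(out x)
  out_opp : ∀ c i, out (c, i + 2) = !(out (c, i))

namespace Diagram

attribute [instance] Diagram.fintypeC Diagram.decEqC

variable (D : Diagram)

/-- Half-edges. -/
abbrev Dart : Type := D.C × Fin 4

/-- Walking along the boundary of a face: go along the edge of `x`, and at its other end turn to
the neighbouring half-edge.  The cycles of this permutation are the faces (complementary regions)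
of the diagram. -/
def face : Equiv.Perm D.Dart where
  toFun x := ((D.e x).1, (D.e x).2 + 1)
  invFun y := D.e (y.1, y.2 - 1)
  left_inv x := by simp [D.e_e]
  right_inv y := by simp [D.e_e]

/-- Walking along the link: go along the edge of `x`, and at its other end go straight through the
crossing. -/
def strand : Equiv.Perm D.Dart where
  toFun x := ((D.e x).1, (D.e x).2 + 2)
  invFun y := D.e (y.1, y.2 - 2)
  left_inv x := by simp [D.e_e]
  right_inv y := by simp [D.e_e]

/-- The diagram is a diagram of a *knot* in the sphere `S^2` (equivalently in the plane):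
* it has a crossing, and it has one component: any two outgoing half-edges are met by one walk
  along the link;
* it is planar: since there are `card C` vertices and `2 * card C` edges, and the diagram is
  connected by the first condition, Euler's formula says that the surface carrying the diagram is
  the sphere iff the number of faces is `card C + 2`. -/
def IsKnotDiagram : Prop :=
  Nonempty D.C ∧
  (∀ x y : D.Dart, D.out x = true → D.out y = true → D.strand.SameCycle x y) ∧
  Nat.card (Quotient (Equiv.Perm.SameCycle.setoid D.face)) = Fintype.card D.C + 2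

/-- A half-edge belongs to the over-strand of its crossing. -/
def IsOver (x : D.Dart) : Prop := x.2 = 1 ∨ x.2 = 3

instance (x : D.Dart) : Decidable (D.IsOver x) := by unfold IsOver; infer_instance

/-- The diagram is alternating: each edge goes from an over-crossing to an under-crossing or
vice versa. -/
def IsAlternating : Prop := ∀ x : D.Dart, D.IsOver (D.e x) ↔ ¬ D.IsOver x

/-- The edges of the oriented diagram, each represented by its outgoing half-edge. -/
abbrev Edge : Type := {x : D.Dart // D.out x = true}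

/-- The edge containing the half-edge `x`. -/
def edgeOf (x : D.Dart) : D.Edge :=
  if h : D.out x = true then ⟨x, h⟩ else ⟨D.e x, by rw [D.out_e]; simpa using h⟩

/-- At the crossing `c`, the outgoing half-edge of the over-strand. -/
def overOut (c : D.C) : Fin 4 := if D.out (c, 3) = true then 3 else 1

/-- The linearised Wirtinger relations.  `v` assigns to each half-edge the generator of the
edge it lies on.  There is one relation for each outgoing half-edge `x` of each crossing:
* if `x` belongs to the over-strand: the generators of the two edges of the over-strand agree;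
* if `x` belongs to the under-strand: `l = t * r + (1 - t) * o`, which is the Fox derivative of
  the Wirtinger relation `l = o * r * o⁻¹`; here `o` is the over-strand (outgoing half-edge `j`),
  `l` is the edge of the under-strand on its left side (half-edge `j + 1`) and `r` the one on its
  right side (half-edge `j + 3`). -/
def relation {R : Type} [CommRing R] (t : R) (v : D.Dart → R) (x : D.Dart) : R :=
  if D.IsOver x then v x - v (x.1, x.2 + 2)
  else v (x.1, D.overOut x.1 + 1) - t * v (x.1, D.overOut x.1 + 3)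
    - (1 - t) * v (x.1, D.overOut x.1)

/-- The Alexander matrix (Fox Jacobian of the Wirtinger presentation), with entries in `ℤ[t]`:
the entry `(x, y)` is the coefficient of the generator `y` in the relation `x`. -/
noncomputable def alexanderMatrix : Matrix D.Edge D.Edge ℤ[X] :=
  Matrix.of fun x y => D.relation X (fun z => if D.edgeOf z = y then 1 else 0) x.1

/-- The Alexander polynomial of (the knot given by) the diagram: the determinant of the Alexander
matrix with the row and the column of one edge `x₀` deleted.  For a knot diagram different `x₀`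
give the same polynomial up to multiplication by a unit `± t ^ k`. -/
noncomputable def alexander (x₀ : D.Edge) : ℤ[X] :=
  (D.alexanderMatrix.submatrix (fun x : {x : D.Edge // x ≠ x₀} => x.1)
    (fun x : {x : D.Edge // x ≠ x₀} => x.1)).det

/-! ### General lemmas -/

lemma edgeOf_out (x : D.Dart) (h : D.out x = true) : D.edgeOf x = ⟨x, h⟩ := by
  simp [edgeOf, h]

lemma edgeOf_in (x : D.Dart) (h : D.out x = false) :
    (D.edgeOf x : D.Dart) = D.e x := by
  simp [edgeOf, h]

/-- evaluation of the Alexander matrix applied to a vector. -/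
lemma relation_sum {R : Type} [CommRing R] (t : R) (w : D.Edge → R) (x : D.Dart) :
    ∑ y, D.relation t (fun z => if D.edgeOf z = y then (1 : R) else 0) x * w y
      = D.relation t (fun z => w (D.edgeOf z)) x := by
  unfold relation
  split_ifs with h
  · simp [sub_mul, Finset.sum_sub_distrib]
  · simp only [sub_mul, Finset.sum_sub_distrib, mul_assoc, ← Finset.mul_sum]
    simp

lemma relation_map {R S : Type} [CommRing R] [CommRing S] (f : R →+* S) (t : R)
    (v : D.Dart → R) (x : D.Dart) :
    f (D.relation t v x) = D.relation (f t) (fun z => f (v z)) x := by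
  unfold relation
  split_ifs with h <;> simp

/-- the Alexander matrix with `t` specialised to `z`. -/
def matAt {R : Type} [CommRing R] (z : R) : Matrix D.Edge D.Edge R :=
  Matrix.of fun x y => D.relation z (fun u => if D.edgeOf u = y then (1 : R) else 0) x.1

/-- the Alexander polynomial evaluated at `z`. -/
lemma aeval_alexander {R : Type} [CommRing R] (z : R) (x₀ : D.Edge) :
    aeval z (D.alexander x₀) =
      ((D.matAt z).submatrix (fun x : {x : D.Edge // x ≠ x₀} => x.1)
        (fun x : {x : D.Edge // x ≠ x₀} => x.1)).det := by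
  have h : (aeval z : ℤ[X] →ₐ[ℤ] R) (D.alexander x₀)
      = (aeval z : ℤ[X] →ₐ[ℤ] R).toRingHom (D.alexander x₀) := rfl
  rw [h, alexander, RingHom.map_det]
  congr 1
  ext x y
  simp only [RingHom.mapMatrix_apply, Matrix.map_apply, Matrix.submatrix_apply, alexanderMatrix,
    Matrix.of_apply, matAt]
  rw [relation_map]
  congr 1
  · simp
  · ext u
    split_ifs <;> simp

/-- the minor of the Alexander matrix applied to a vector vanishing at `x₀`. -/
lemma minor_mulVec {R : Type} [CommRing R] (z : R) (x₀ : D.Edge) (w : D.Edge → R) (hw : w x₀ = 0)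
    (x : {x : D.Edge // x ≠ x₀}) :
    (((D.matAt z).submatrix (fun x : {x : D.Edge // x ≠ x₀} => x.1)
        (fun x : {x : D.Edge // x ≠ x₀} => x.1)).mulVec (fun y => w y.1)) x
      = D.relation z (fun u => w (D.edgeOf u)) x.1.1 := by
  rw [← relation_sum]
  simp only [Matrix.mulVec, dotProduct, Matrix.submatrix_apply, matAt, Matrix.of_apply]
  rw [← Finset.sum_erase (a := x₀) Finset.univ (by rw [hw, mul_zero])]
  rw [Finset.sum_subtype (p := fun y : D.Edge => y ≠ x₀)]
  intro y
  simp

/-- A nontrivial colouring gives a zero of the Alexander polynomial. -/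
lemma aeval_alexander_eq_zero (z : ℂ) (v : D.Dart → ℂ) (hv : ∀ x, v (D.e x) = v x)
    (hrel : ∀ x, D.out x = true → D.relation z v x = 0)
    (hne : ∃ x y, v x ≠ v y) (x₀ : D.Edge) : aeval z (D.alexander x₀) = 0 := by
  have hedge : ∀ u, v (D.edgeOf u).1 = v u := by
    intro u
    unfold edgeOf
    split_ifs with h
    · rfl
    · exact hv u
  rw [aeval_alexander, ← Matrix.exists_mulVec_eq_zero_iff]
  refine ⟨fun x => v x.1.1 - v x₀.1, ?_, ?_⟩
  · intro h0
    obtain ⟨x, y, hxy⟩ := hne
    have hall : ∀ u, v u = v x₀.1 := by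
      intro u
      by_cases hu : D.edgeOf u = x₀
      · rw [← hedge u, hu]
      · have := congrFun h0 ⟨D.edgeOf u, hu⟩
        simp only [Pi.zero_apply, sub_eq_zero] at this
        rw [← hedge u]; exact this
    exact hxy (by rw [hall x, hall y])
  · ext x
    rw [D.minor_mulVec z x₀ (fun y : D.Edge => v y.1 - v x₀.1) (sub_self _)]
    have h2 := hrel x.1.1 x.1.2
    unfold relation at h2 ⊢
    simp only [hedge, Pi.zero_apply]
    split_ifs at h2 ⊢ with h
    · linear_combination h2
    · linear_combination h2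

/-- the relations at `t = 1`. -/
lemma relation_one {R : Type} [CommRing R] (v : D.Dart → R) (x : D.Dart)
    (h : D.relation 1 v x = 0) : v x = v (x.1, x.2 + 2) := by
  obtain ⟨c, i⟩ := x
  unfold relation at h
  split_ifs at h with h1
  · exact sub_eq_zero.mp h
  · have hj : D.overOut c = 3 ∨ D.overOut c = 1 := by
      unfold overOut; split_ifs <;> simp
    have hi : i = 0 ∨ i = 2 := by
      unfold IsOver at h1
      simp only at h1
      fin_cases i <;> simp_all
    simp only [one_mul, sub_self, zero_mul, sub_zero] at h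
    rcases hj with hj | hj <;> rcases hi with hi | hi <;> subst hi <;> rw [hj] at h
    · exact sub_eq_zero.mp h
    · exact (sub_eq_zero.mp h).symm
    · exact (sub_eq_zero.mp h).symm
    · exact sub_eq_zero.mp h

/-- For a knot diagram the Alexander polynomial does not vanish (its value at `1` is nonzero). -/
lemma alexander_ne_zero
    (hD : ∀ x y : D.Dart, D.out x = true → D.out y = true → D.strand.SameCycle x y)
    (x₀ : D.Edge) : D.alexander x₀ ≠ 0 := by
  intro h0
  have h1 : aeval (1 : ℤ) (D.alexander x₀) = 0 := by rw [h0]; simp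
  rw [aeval_alexander, ← Matrix.exists_mulVec_eq_zero_iff] at h1
  obtain ⟨w, hw0, hw⟩ := h1
  -- extend `w` by zero
  let W : D.Edge → ℤ := fun x => if h : x ≠ x₀ then w ⟨x, h⟩ else 0
  have hWx0 : W x₀ = 0 := by simp [W]
  have hWw : (fun y : {x : D.Edge // x ≠ x₀} => W y.1) = w := by
    ext y
    simp [W, y.2]
  have hrel : ∀ x : {x : D.Edge // x ≠ x₀}, D.relation (1 : ℤ) (fun u => W (D.edgeOf u)) x.1.1 = 0 := by
    intro x
    rw [← D.minor_mulVec 1 x₀ W hWx0 x, hWw, hw]
    rfl
  -- one step along the link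
  have hout : ∀ x : D.Dart, D.out x = true → D.out (D.strand x) = true := by
    intro x hx
    have : D.strand x = ((D.e x).1, (D.e x).2 + 2) := rfl
    rw [this, D.out_opp, D.out_e, hx]; rfl
  have hstep : ∀ (x : D.Dart) (hx : D.out x = true),
      W ⟨D.strand x, hout x hx⟩ = W ⟨x, hx⟩ ∨ W ⟨D.strand x, hout x hx⟩ = 0 := by
    intro x hx
    by_cases hxx : (⟨D.strand x, hout x hx⟩ : D.Edge) = x₀
    · right; rw [hxx, hWx0]
    · left
      have h2 := D.relation_one _ _ (hrel ⟨⟨D.strand x, hout x hx⟩, hxx⟩)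
      have e1 : D.edgeOf (D.strand x) = ⟨D.strand x, hout x hx⟩ := D.edgeOf_out _ _
      have e3 : ((D.strand x).1, (D.strand x).2 + 2) = D.e x := by
        have : D.strand x = ((D.e x).1, (D.e x).2 + 2) := rfl
        rw [this]
        ext1
        · rfl
        · show (D.e x).2 + 2 + 2 = (D.e x).2
          rw [add_assoc]; exact add_zero _
      have e2 : D.edgeOf (D.e x) = ⟨x, hx⟩ := by
        apply Subtype.ext
        rw [D.edgeOf_in _ (by rw [D.out_e, hx]; rfl), D.e_e]
      simp only [e1, e2, e3] at h2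
      exact h2
  have hall : ∀ (k : ℕ), ∃ h : D.out ((D.strand ^ k) x₀.1) = true,
      W ⟨(D.strand ^ k) x₀.1, h⟩ = 0 := by
    intro k
    induction k with
    | zero => exact ⟨x₀.2, hWx0⟩
    | succ k ih =>
      obtain ⟨h, hk⟩ := ih
      have e1 : (D.strand ^ (k+1)) x₀.1 = D.strand ((D.strand ^ k) x₀.1) := by
        rw [pow_succ']; rfl
      rw [e1]
      refine ⟨hout _ h, ?_⟩
      rcases hstep _ h with h3 | h3
      · rw [h3, hk]
      · exact h3
  apply hw0
  rw [← hWw]
  ext y
  obtain ⟨k, hk⟩ := (hD x₀.1 y.1.1 x₀.2 y.1.2).exists_nat_pow_eq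
  obtain ⟨h, h'⟩ := hall k
  have : y.1 = ⟨(D.strand ^ k) x₀.1, h⟩ := Subtype.ext hk.symm
  simp only [Pi.zero_apply]
  rw [this, h']

end Diagram

/-! ## The Montesinos knots `M(2; 1/2, 2/3, ..., 2/3)` -/

/-- The crossings of the diagram with `n + 1` tangles `2/3`: the `i`-th of these has the crossings
`A i`, `B i` (side by side, `A i` on the left) and `T i` (below them); the tangle `1/2` has the
crossings `P` (above) and `Q` (below); the tangle `2` has the crossings `R` (left) and `S`
(right). -/
inductive Cr (n : ℕ)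
  | A (i : Fin (n + 1))
  | B (i : Fin (n + 1))
  | T (i : Fin (n + 1))
  | P
  | Q
  | R
  | S
  deriving DecidableEq, Fintype

namespace Cr

/-- auxiliary: `Cr n` as a sum type. -/
def equivSum (n : ℕ) : Cr n ≃ (Fin (n+1) ⊕ Fin (n+1) ⊕ Fin (n+1) ⊕ Fin 4) where
  toFun
    | A i => .inl i
    | B i => .inr (.inl i)
    | T i => .inr (.inr (.inl i))
    | P => .inr (.inr (.inr 0))
    | Q => .inr (.inr (.inr 1))
    | R => .inr (.inr (.inr 2))
    | S => .inr (.inr (.inr 3))
  invFun
    | .inl i => A i
    | .inr (.inl i) => B i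
    | .inr (.inr (.inl i)) => T i
    | .inr (.inr (.inr 0)) => P
    | .inr (.inr (.inr 1)) => Q
    | .inr (.inr (.inr 2)) => R
    | .inr (.inr (.inr 3)) => S
  left_inv x := by cases x <;> rfl
  right_inv x := by
    rcases x with i | i | i | i
    · rfl
    · rfl
    · rfl
    · fin_cases i <;> rfl

lemma card (n : ℕ) : Fintype.card (Cr n) = 3 * n + 7 := by
  rw [Fintype.card_congr (equivSum n)]
  simp only [Fintype.card_sum, Fintype.card_fin]
  omega

end Cr

open Cr

/-- The gluing of the half-edges; `0, 1, 2, 3` are the NW, SW, SE, NE ends of a crossing. -/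
def glue (n : ℕ) : Cr n × Fin 4 → Cr n × Fin 4
  | (A i, 0) => if h : i.val = 0 then (P, 3) else (B ⟨i.val - 1, by omega⟩, 3)
  | (A i, 1) => (T i, 0)
  | (A i, 2) => (B i, 1)
  | (A i, 3) => (B i, 0)
  | (B i, 0) => (A i, 3)
  | (B i, 1) => (A i, 2)
  | (B i, 2) => (T i, 3)
  | (B i, 3) => if h : i.val = n then (R, 0) else (A ⟨i.val + 1, by omega⟩, 0)
  | (T i, 0) => (A i, 1)
  | (T i, 1) => if h : i.val = 0 then (Q, 2) else (T ⟨i.val - 1, by omega⟩, 2)
  | (T i, 2) => if h : i.val = n then (R, 1) else (T ⟨i.val + 1, by omega⟩, 1)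
  | (T i, 3) => (B i, 2)
  | (P, 0) => (S, 3)
  | (P, 1) => (Q, 0)
  | (P, 2) => (Q, 3)
  | (P, 3) => (A 0, 0)
  | (Q, 0) => (P, 1)
  | (Q, 1) => (S, 2)
  | (Q, 2) => (T 0, 1)
  | (Q, 3) => (P, 2)
  | (R, 0) => (B (Fin.last n), 3)
  | (R, 1) => (T (Fin.last n), 2)
  | (R, 2) => (S, 1)
  | (R, 3) => (S, 0)
  | (S, 0) => (R, 3)
  | (S, 1) => (R, 2)
  | (S, 2) => (Q, 1)
  | (S, 3) => (P, 0)

/-- The orientation. -/
def orient (n : ℕ) : Cr n × Fin 4 → Bool
  | (A _, i) => i = 2 ∨ i = 3
  | (B _, i) => i = 2 ∨ i = 3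
  | (T _, i) => i = 0 ∨ i = 1
  | (P, i) => i = 2 ∨ i = 3
  | (Q, i) => i = 0 ∨ i = 1
  | (R, i) => i = 1 ∨ i = 2
  | (S, i) => i = 0 ∨ i = 3

lemma glue_glue (n : ℕ) (x : Cr n × Fin 4) : glue n (glue n x) = x := by
  obtain ⟨c, d⟩ := x
  cases c with
  | A i =>
    fin_cases d
    · show glue n (glue n (A i, 0)) = (A i, 0)
      by_cases h : i.val = 0
      · have : i = 0 := Fin.ext h
        subst this
        simp [glue]
      · simp only [glue, h, ↓reduceDIte]
        rw [dif_neg (by omega)]
        simp only [Prod.mk.injEq, A.injEq, and_true]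
        apply Fin.ext; show i.val - 1 + 1 = i.val; omega
    · rfl
    · rfl
    · rfl
  | B i =>
    fin_cases d
    · rfl
    · rfl
    · rfl
    · show glue n (glue n (B i, 3)) = (B i, 3)
      by_cases h : i.val = n
      · have : i = Fin.last n := Fin.ext h
        subst this
        simp [glue]
      · simp only [glue, h, ↓reduceDIte]
        rw [dif_neg (by omega)]
        simp only [Prod.mk.injEq, B.injEq, and_true]
        apply Fin.ext; show i.val + 1 - 1 = i.val; omega
  | T i =>
    fin_cases d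
    · rfl
    · show glue n (glue n (T i, 1)) = (T i, 1)
      by_cases h : i.val = 0
      · have : i = 0 := Fin.ext h
        subst this
        simp [glue]
      · simp only [glue, h, ↓reduceDIte]
        rw [dif_neg (by omega)]
        simp only [Prod.mk.injEq, T.injEq, and_true]
        apply Fin.ext; show i.val - 1 + 1 = i.val; omega
    · show glue n (glue n (T i, 2)) = (T i, 2)
      by_cases h : i.val = n
      · have : i = Fin.last n := Fin.ext h
        subst this
        simp [glue]
      · simp only [glue, h, ↓reduceDIte]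
        rw [dif_neg (by omega)]
        simp only [Prod.mk.injEq, T.injEq, and_true]
        apply Fin.ext; show i.val + 1 - 1 = i.val; omega
    · rfl
  | P => fin_cases d <;> simp [glue]
  | Q => fin_cases d <;> simp [glue]
  | R => fin_cases d <;> simp [glue]
  | S => fin_cases d <;> simp [glue]

lemma orient_glue (n : ℕ) (x : Cr n × Fin 4) : orient n (glue n x) = !(orient n x) := by
  obtain ⟨c, d⟩ := x
  cases c <;> fin_cases d <;> simp only [glue, orient, Fin.zero_eta, Fin.mk_one, Fin.reduceFinMk] <;>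
    (try split_ifs) <;> rfl

lemma orient_opp (n : ℕ) (c : Cr n) (i : Fin 4) : orient n (c, i + 2) = !(orient n (c, i)) := by
  cases c <;> fin_cases i <;> rfl

/-- The diagram of the Montesinos knot `M(2; 1/2, 2/3, ..., 2/3)` with `n + 1` tangles `2/3`. -/
def knot (n : ℕ) : Diagram where
  C := Cr n
  e := glue n
  e_e := glue_glue n
  out := orient n
  out_e := orient_glue n
  out_opp := orient_opp n

lemma knot_alternating (n : ℕ) : (knot n).IsAlternating := by
  intro x
  obtain ⟨c, d⟩ := x
  show (knot n).IsOver (glue n (c, d)) ↔ _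
  unfold Diagram.IsOver
  cases c <;> fin_cases d <;> simp only [glue, Fin.zero_eta, Fin.mk_one, Fin.reduceFinMk] <;>
    (try split_ifs) <;> simp

/-! ### The gluing at the ends of the tangles -/

lemma glue_B3 (n k : ℕ) (h : k + 1 < n + 1) :
    glue n (B ⟨k, by omega⟩, 3) = (A ⟨k + 1, h⟩, 0) := by
  simp only [glue]
  rw [dif_neg (by omega)]

lemma glue_B3_last (n : ℕ) : glue n (B (Fin.last n), 3) = (R, 0) := by
  simp [glue]

lemma glue_T2 (n k : ℕ) (h : k + 1 < n + 1) :
    glue n (T ⟨k, by omega⟩, 2) = (T ⟨k + 1, h⟩, 1) := by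
  simp only [glue]
  rw [dif_neg (by omega)]

lemma glue_T2_last (n : ℕ) : glue n (T (Fin.last n), 2) = (R, 1) := by
  simp [glue]

lemma glue_A0_zero (n : ℕ) : glue n (A 0, 0) = (P, 3) := by simp [glue]

lemma glue_A0_succ (n k : ℕ) (h : k + 1 < n + 1) :
    glue n (A ⟨k + 1, h⟩, 0) = (B ⟨k, by omega⟩, 3) := by
  simp [glue]

lemma glue_T1_zero (n : ℕ) : glue n (T 0, 1) = (Q, 2) := by simp [glue]

lemma glue_T1_succ (n k : ℕ) (h : k + 1 < n + 1) :
    glue n (T ⟨k + 1, h⟩, 1) = (T ⟨k, by omega⟩, 2) := by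
  simp [glue]

lemma sc_step {α : Type} (f : Equiv.Perm α) {x y : α} (h : f x = y) : f.SameCycle x y :=
  ⟨1, by simpa using h⟩

/-! ### The diagram has one component -/

/-- the permutation `strand` of the diagram. -/
def sp (n : ℕ) : Equiv.Perm (Cr n × Fin 4) := (knot n).strand

lemma strand_apply (n : ℕ) (x : Cr n × Fin 4) :
    sp n x = ((glue n x).1, (glue n x).2 + 2) := rfl

lemma strand_bot (n : ℕ) : ∀ (k : ℕ) (h : k < n + 1),
    (sp n).SameCycle (T ⟨k, h⟩, 1) (P, 3)
  | 0, _ => by
    have h1 : (sp n).SameCycle (T 0, 1) (Q, 0) :=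
      sc_step _ (by rw [strand_apply, glue_T1_zero]; rfl)
    have h2 : (sp n).SameCycle (Q, 0) (P, 3) := sc_step _ rfl
    exact h1.trans h2
  | k + 1, h => by
    have h0 := strand_bot n k (by omega)
    have h1 : (sp n).SameCycle (T ⟨k + 1, h⟩, 1) (T ⟨k, by omega⟩, 0) :=
      sc_step _ (by rw [strand_apply, glue_T1_succ]; rfl)
    have h2 : (sp n).SameCycle (T ⟨k, by omega⟩, 0) (A ⟨k, by omega⟩, 3) := sc_step _ rfl
    have h3 : (sp n).SameCycle (A ⟨k, by omega⟩, 3) (B ⟨k, by omega⟩, 2) := sc_step _ rfl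
    have h4 : (sp n).SameCycle (B ⟨k, by omega⟩, 2) (T ⟨k, by omega⟩, 1) :=
      sc_step _ (by rw [strand_apply]; simp [glue])
    exact h1.trans (h2.trans (h3.trans (h4.trans h0)))

lemma strand_top (n : ℕ) : ∀ (k : ℕ) (h : k < n + 1),
    (sp n).SameCycle (P, 3) (B ⟨k, h⟩, 3)
  | 0, _ => by
    have h1 : (sp n).SameCycle (P, 3) (A 0, 2) := sc_step _ rfl
    have h2 : (sp n).SameCycle (A 0, 2) (B 0, 3) := sc_step _ rfl
    exact h1.trans h2
  | k + 1, h => by
    have h0 := strand_top n k (by omega)
    have h1 : (sp n).SameCycle (B ⟨k, by omega⟩, 3) (A ⟨k + 1, h⟩, 2) :=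
      sc_step _ (by rw [strand_apply, glue_B3 n k h]; rfl)
    have h2 : (sp n).SameCycle (A ⟨k + 1, h⟩, 2) (B ⟨k + 1, h⟩, 3) := sc_step _ rfl
    exact h0.trans (h1.trans h2)

lemma strand_all (n : ℕ) (x : Cr n × Fin 4) (hx : orient n x = true) :
    (sp n).SameCycle x (P, 3) := by
  have hT1 : ∀ i, (sp n).SameCycle (T i, 1) (P, 3) := fun i => strand_bot n i.1 i.2
  have hB2 : ∀ i, (sp n).SameCycle (B i, 2) (P, 3) :=
    fun i => (sc_step _ (by rw [strand_apply]; simp [glue]) :
      (sp n).SameCycle (B i, 2) (T i, 1)).trans (hT1 i)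
  have hA3 : ∀ i, (sp n).SameCycle (A i, 3) (P, 3) :=
    fun i => (sc_step _ rfl : (sp n).SameCycle (A i, 3) (B i, 2)).trans (hB2 i)
  have hT0 : ∀ i, (sp n).SameCycle (T i, 0) (P, 3) :=
    fun i => (sc_step _ rfl : (sp n).SameCycle (T i, 0) (A i, 3)).trans (hA3 i)
  have hB3 : ∀ i, (sp n).SameCycle (B i, 3) (P, 3) := fun i => (strand_top n i.1 i.2).symm
  have hA2 : ∀ i, (sp n).SameCycle (A i, 2) (P, 3) :=
    fun i => (sc_step _ rfl : (sp n).SameCycle (A i, 2) (B i, 3)).trans (hB3 i)
  have hR1 : (sp n).SameCycle (R, 1) (P, 3) :=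
    (sc_step _ (by rw [strand_apply]; simp [glue]) :
      (sp n).SameCycle (R, 1) (T (Fin.last n), 0)).trans (hT0 _)
  have hS0 : (sp n).SameCycle (S, 0) (P, 3) :=
    (sc_step _ (by rw [strand_apply]; simp [glue]) : (sp n).SameCycle (S, 0) (R, 1)).trans hR1
  have hQ1 : (sp n).SameCycle (Q, 1) (P, 3) :=
    (sc_step _ (by rw [strand_apply]; simp [glue]) : (sp n).SameCycle (Q, 1) (S, 0)).trans hS0
  have hP2 : (sp n).SameCycle (P, 2) (P, 3) :=
    (sc_step _ (by rw [strand_apply]; simp [glue]) : (sp n).SameCycle (P, 2) (Q, 1)).trans hQ1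
  have hS3 : (sp n).SameCycle (S, 3) (P, 3) :=
    (sc_step _ rfl : (sp n).SameCycle (S, 3) (P, 2)).trans hP2
  have hR2 : (sp n).SameCycle (R, 2) (P, 3) :=
    (sc_step _ rfl : (sp n).SameCycle (R, 2) (S, 3)).trans hS3
  have hQ0 : (sp n).SameCycle (Q, 0) (P, 3) := sc_step _ rfl
  obtain ⟨c, d⟩ := x
  cases c <;> fin_cases d <;> first
    | (exfalso; revert hx; simp [orient]; done)
    | exact hT1 _
    | exact hT0 _
    | exact hA3 _
    | exact hA2 _
    | exact hB3 _
    | exact hB2 _
    | exact hR1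
    | exact hR2
    | exact hS0
    | exact hS3
    | exact hQ1
    | exact hQ0
    | exact hP2
    | exact Equiv.Perm.SameCycle.refl _ _

/-! ### The diagram is planar -/

/-- The faces of the diagram: `N`, `S` above and below all tangles, `W` between the tangles `2` and
`1/2`, `gap k` between consecutive tangles, `pq`, `rs`, `bi i` the bigons and `tri i` the
triangles. -/
inductive Fc (n : ℕ)
  | N
  | S
  | W
  | pq
  | rs
  | gap (k : Fin (n + 2))
  | bi (i : Fin (n + 1))
  | tri (i : Fin (n + 1))
  deriving DecidableEq, Fintype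

/-- auxiliary: `Fc n` as a sum type. -/
def Fc.equivSum (n : ℕ) : Fc n ≃ (Fin (n+2) ⊕ Fin (n+1) ⊕ Fin (n+1) ⊕ Fin 5) where
  toFun
    | .gap i => .inl i
    | .bi i => .inr (.inl i)
    | .tri i => .inr (.inr (.inl i))
    | .N => .inr (.inr (.inr 0))
    | .S => .inr (.inr (.inr 1))
    | .W => .inr (.inr (.inr 2))
    | .pq => .inr (.inr (.inr 3))
    | .rs => .inr (.inr (.inr 4))
  invFun
    | .inl i => .gap i
    | .inr (.inl i) => .bi i
    | .inr (.inr (.inl i)) => .tri i
    | .inr (.inr (.inr 0)) => .N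
    | .inr (.inr (.inr 1)) => .S
    | .inr (.inr (.inr 2)) => .W
    | .inr (.inr (.inr 3)) => .pq
    | .inr (.inr (.inr 4)) => .rs
  left_inv x := by cases x <;> rfl
  right_inv x := by
    rcases x with i | i | i | i
    · rfl
    · rfl
    · rfl
    · fin_cases i <;> rfl

lemma Fc.card (n : ℕ) : Fintype.card (Fc n) = 3 * n + 9 := by
  rw [Fintype.card_congr (Fc.equivSum n)]
  simp only [Fintype.card_sum, Fintype.card_fin]
  omega

/-- The face to which a half-edge belongs. -/
def lab (n : ℕ) : Cr n × Fin 4 → Fc n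
  | (A _, 0) => .N
  | (A i, 1) => .gap i.castSucc
  | (A i, 2) => .tri i
  | (A i, 3) => .bi i
  | (B _, 0) => .N
  | (B i, 1) => .bi i
  | (B i, 2) => .tri i
  | (B i, 3) => .gap i.succ
  | (T i, 0) => .tri i
  | (T i, 1) => .gap i.castSucc
  | (T _, 2) => .S
  | (T i, 3) => .gap i.succ
  | (P, 0) => .N
  | (P, 1) => .W
  | (P, 2) => .pq
  | (P, 3) => .gap 0
  | (Q, 0) => .pq
  | (Q, 1) => .W
  | (Q, 2) => .S
  | (Q, 3) => .gap 0
  | (R, 0) => .N
  | (R, 1) => .gap (Fin.last (n + 1))
  | (R, 2) => .S
  | (R, 3) => .rs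
  | (S, 0) => .N
  | (S, 1) => .rs
  | (S, 2) => .S
  | (S, 3) => .W

/-- A half-edge of a given face. -/
def rep (n : ℕ) : Fc n → Cr n × Fin 4
  | .N => (P, 0)
  | .S => (Q, 2)
  | .W => (P, 1)
  | .pq => (P, 2)
  | .rs => (R, 3)
  | .gap ⟨0, _⟩ => (P, 3)
  | .gap ⟨k + 1, h⟩ => (B ⟨k, by omega⟩, 3)
  | .bi i => (A i, 3)
  | .tri i => (A i, 2)

/-- the permutation `face` of the diagram. -/
def fp (n : ℕ) : Equiv.Perm (Cr n × Fin 4) := (knot n).face

lemma face_apply (n : ℕ) (x : Cr n × Fin 4) :
    fp n x = ((glue n x).1, (glue n x).2 + 1) := rfl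

lemma lab_rep (n : ℕ) (l : Fc n) : lab n (rep n l) = l := by
  cases l with
  | gap k =>
    obtain ⟨k, h⟩ := k
    cases k <;> rfl
  | _ => rfl

lemma lab_face (n : ℕ) (x : Cr n × Fin 4) : lab n (fp n x) = lab n x := by
  rw [face_apply]
  obtain ⟨c, d⟩ := x
  cases c with
  | A i =>
    fin_cases d
    · obtain ⟨k, hk⟩ := i
      cases k with
      | zero => rfl
      | succ k => simp only [Fin.zero_eta, glue_A0_succ n k hk]; rfl
    · rfl
    · rfl
    · rfl
  | B i =>
    fin_cases d
    · rfl
    · rfl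
    · rfl
    · rcases Nat.lt_or_ge i.1 n with h | h
      · simp only [Fin.reduceFinMk]
        rw [glue_B3 n i.1 (by omega)]; rfl
      · have : i = Fin.last n := Fin.ext (by simp; omega)
        subst this
        simp only [Fin.reduceFinMk, glue_B3_last]; rfl
  | T i =>
    fin_cases d
    · rfl
    · obtain ⟨k, hk⟩ := i
      cases k with
      | zero => rfl
      | succ k => simp only [Fin.mk_one, glue_T1_succ n k hk]; rfl
    · rcases Nat.lt_or_ge i.1 n with h | h
      · simp only [Fin.reduceFinMk]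
        rw [glue_T2 n i.1 (by omega)]; rfl
      · have : i = Fin.last n := Fin.ext (by simp; omega)
        subst this
        simp only [Fin.reduceFinMk, glue_T2_last]; rfl
    · rfl
  | P => fin_cases d <;> rfl
  | Q => fin_cases d <;> rfl
  | R => fin_cases d <;> rfl
  | S => fin_cases d <;> rfl

lemma face_N (n : ℕ) : ∀ (k : ℕ) (h : k < n + 1), (fp n).SameCycle (A ⟨k, h⟩, 0) (P, 0)
  | 0, _ => sc_step _ (by
      show fp n (A 0, 0) = (P, 0)
      rw [face_apply, glue_A0_zero]; rfl)
  | k + 1, h => by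
    have h0 := face_N n k (by omega)
    have h1 : (fp n).SameCycle (A ⟨k + 1, h⟩, 0) (B ⟨k, by omega⟩, 0) :=
      sc_step _ (by rw [face_apply, glue_A0_succ]; rfl)
    have h2 : (fp n).SameCycle (B ⟨k, by omega⟩, 0) (A ⟨k, by omega⟩, 0) :=
      sc_step _ (by rw [face_apply]; simp [glue])
    exact h1.trans (h2.trans h0)

lemma face_S (n : ℕ) : ∀ (k : ℕ) (h : k < n + 1), (fp n).SameCycle (T ⟨k, h⟩, 2) (Q, 2)
  | 0, _ => by
    have h : (fp n).SameCycle (Q, 2) (T 0, 2) := sc_step _ rfl
    exact h.symm
  | k + 1, h => by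
    have h0 := face_S n k (by omega)
    have h1 : (fp n).SameCycle (T ⟨k, by omega⟩, 2) (T ⟨k + 1, h⟩, 2) :=
      sc_step _ (by rw [face_apply, glue_T2 n k h]; rfl)
    exact h1.symm.trans h0

lemma face_gap0 (n : ℕ) : (fp n).SameCycle (A 0, 1) (P, 3) ∧ (fp n).SameCycle (T 0, 1) (P, 3) ∧
    (fp n).SameCycle (Q, 3) (P, 3) := by
  have h1 : (fp n).SameCycle (Q, 3) (P, 3) := sc_step _ rfl
  have h2 : (fp n).SameCycle (T 0, 1) (Q, 3) :=
    sc_step _ (by rw [face_apply, glue_T1_zero]; rfl)
  have h3 : (fp n).SameCycle (A 0, 1) (T 0, 1) := sc_step _ rfl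
  exact ⟨h3.trans (h2.trans h1), h2.trans h1, h1⟩

lemma face_gap (n k : ℕ) (h : k + 1 < n + 1) :
    (fp n).SameCycle (A ⟨k + 1, h⟩, 1) (B ⟨k, by omega⟩, 3) ∧
    (fp n).SameCycle (T ⟨k + 1, h⟩, 1) (B ⟨k, by omega⟩, 3) := by
  have h1 : (fp n).SameCycle (B ⟨k, by omega⟩, 3) (A ⟨k + 1, h⟩, 1) :=
    sc_step _ (by rw [face_apply, glue_B3 n k h]; rfl)
  have h2 : (fp n).SameCycle (A ⟨k + 1, h⟩, 1) (T ⟨k + 1, h⟩, 1) := sc_step _ rfl
  exact ⟨h1.symm, (h1.trans h2).symm⟩

lemma face_T3 (n : ℕ) (i : Fin (n + 1)) : (fp n).SameCycle (T i, 3) (B i, 3) := sc_step _ rfl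

lemma face_all (n : ℕ) (x : Cr n × Fin 4) : (fp n).SameCycle x (rep n (lab n x)) := by
  have hA0 : ∀ i, (fp n).SameCycle (A i, 0) (P, 0) := fun i => face_N n i.1 i.2
  have hT2 : ∀ i, (fp n).SameCycle (T i, 2) (Q, 2) := fun i => face_S n i.1 i.2
  obtain ⟨c, d⟩ := x
  cases c with
  | A i =>
    fin_cases d
    · exact hA0 i
    · obtain ⟨k, hk⟩ := i
      cases k with
      | zero => exact (face_gap0 n).1
      | succ k => exact (face_gap n k hk).1
    · exact Equiv.Perm.SameCycle.refl _ _
    · exact Equiv.Perm.SameCycle.refl _ _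
  | B i =>
    fin_cases d
    · exact (sc_step _ (by rw [face_apply]; simp [glue]) :
        (fp n).SameCycle (B i, 0) (A i, 0)).trans (hA0 i)
    · exact (sc_step _ rfl : (fp n).SameCycle (B i, 1) (A i, 3))
    · exact (sc_step _ rfl : (fp n).SameCycle (A i, 2) (B i, 2)).symm
    · exact Equiv.Perm.SameCycle.refl _ _
  | T i =>
    fin_cases d
    · exact (sc_step _ rfl : (fp n).SameCycle (T i, 0) (A i, 2))
    · obtain ⟨k, hk⟩ := i
      cases k with
      | zero => exact (face_gap0 n).2.1
      | succ k => exact (face_gap n k hk).2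
    · exact hT2 i
    · exact face_T3 n i
  | P =>
    fin_cases d <;> exact Equiv.Perm.SameCycle.refl _ _
  | Q =>
    fin_cases d
    · exact (sc_step _ rfl : (fp n).SameCycle (Q, 0) (P, 2))
    · exact (sc_step _ rfl : (fp n).SameCycle (P, 1) (Q, 1)).symm
    · exact Equiv.Perm.SameCycle.refl _ _
    · exact (face_gap0 n).2.2
  | R =>
    fin_cases d
    · exact (sc_step _ (by rw [face_apply]; simp [glue]) :
        (fp n).SameCycle (R, 0) (B (Fin.last n), 0)).trans
        ((sc_step _ (by rw [face_apply]; simp [glue]) :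
          (fp n).SameCycle (B (Fin.last n), 0) (A (Fin.last n), 0)).trans (hA0 _))
    · exact (sc_step _ (by rw [face_apply, glue_B3_last]; rfl) :
        (fp n).SameCycle (B (Fin.last n), 3) (R, 1)).symm
    · exact ((sc_step _ (by rw [face_apply, glue_T2_last]; rfl) :
        (fp n).SameCycle (T (Fin.last n), 2) (R, 2)).symm).trans (hT2 _)
    · exact Equiv.Perm.SameCycle.refl _ _
  | S =>
    fin_cases d
    · exact (sc_step _ (by rw [face_apply]; simp [glue]) : (fp n).SameCycle (P, 0) (S, 0)).symm
    · exact (sc_step _ rfl : (fp n).SameCycle (S, 1) (R, 3))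
    · exact (sc_step _ rfl : (fp n).SameCycle (S, 2) (Q, 2))
    · exact (sc_step _ rfl : (fp n).SameCycle (S, 3) (P, 1))

lemma lab_sameCycle (n : ℕ) (x y : Cr n × Fin 4) (h : (fp n).SameCycle x y) :
    lab n x = lab n y := by
  obtain ⟨k, hk⟩ := h.exists_nat_pow_eq
  rw [← hk]
  clear hk
  induction k with
  | zero => rfl
  | succ k ih =>
    have : ((fp n) ^ (k + 1)) x = fp n (((fp n) ^ k) x) := by rw [pow_succ']; rfl
    rw [this, lab_face, ← ih]

/-- the faces of the diagram. -/
def facesEquiv (n : ℕ) : Quotient (Equiv.Perm.SameCycle.setoid (fp n)) ≃ Fc n where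
  toFun := Quotient.lift (lab n) (fun a b h => lab_sameCycle n a b h)
  invFun l := Quotient.mk _ (rep n l)
  left_inv q := by
    induction q using Quotient.inductionOn with
    | h x => exact Quotient.sound (face_all n x).symm
  right_inv l := lab_rep n l

lemma knot_isKnot (n : ℕ) : (knot n).IsKnotDiagram := by
  refine ⟨⟨(P : Cr n)⟩, ?_, ?_⟩
  · intro x y hx hy
    exact (strand_all n x hx).trans (strand_all n y hy).symm
  · have h1 : Nat.card (Quotient (Equiv.Perm.SameCycle.setoid (fp n))) = 3 * n + 9 := by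
      rw [Nat.card_congr (facesEquiv n), Nat.card_eq_fintype_card, Fc.card]
    have h2 : Fintype.card (knot n).C = 3 * n + 7 := by
      rw [← Cr.card n]
      exact Fintype.card_congr (Equiv.refl _)
    rw [h2]
    exact h1

/-! ### The colouring -/

/-- The nontrivial colouring of the diagram. -/
noncomputable def col (n : ℕ) (t k : ℂ) : Cr n × Fin 4 → ℂ
  | (A i, 0) => (i.val : ℂ) * k
  | (A i, 1) => (i.val : ℂ) * k - t + (1 - t) * k
  | (A i, 2) => ((i.val : ℂ) + 1) * k
  | (A i, 3) => (i.val : ℂ) * k - t + (1 - t) * k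
  | (B i, 0) => (i.val : ℂ) * k - t + (1 - t) * k
  | (B i, 1) => ((i.val : ℂ) + 1) * k
  | (B i, 2) => (i.val : ℂ) * k - 1
  | (B i, 3) => ((i.val : ℂ) + 1) * k
  | (T i, 0) => (i.val : ℂ) * k - t + (1 - t) * k
  | (T i, 1) => (i.val : ℂ) * k - 1
  | (T i, 2) => ((i.val : ℂ) + 1) * k - 1
  | (T i, 3) => (i.val : ℂ) * k - 1
  | (P, 0) => t / (t - 1)
  | (P, 1) => 0
  | (P, 2) => 1 / (t - 1)
  | (P, 3) => 0
  | (Q, 0) => 0
  | (Q, 1) => 1 / (t - 1)
  | (Q, 2) => -1
  | (Q, 3) => 1 / (t - 1)
  | (R, 0) => ((n : ℂ) + 1) * k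
  | (R, 1) => ((n : ℂ) + 1) * k - 1
  | (R, 2) => t / (t - 1)
  | (R, 3) => ((n : ℂ) + 1) * k - 1
  | (S, 0) => ((n : ℂ) + 1) * k - 1
  | (S, 1) => t / (t - 1)
  | (S, 2) => 1 / (t - 1)
  | (S, 3) => t / (t - 1)

lemma col_glue (n : ℕ) (t k : ℂ) (x : Cr n × Fin 4) : col n t k (glue n x) = col n t k x := by
  obtain ⟨c, d⟩ := x
  cases c with
  | A i =>
    fin_cases d
    · obtain ⟨j, hj⟩ := i
      cases j with
      | zero => simp [glue, col]
      | succ j =>
        simp only [Fin.zero_eta, glue_A0_succ n j hj]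
        simp [col]
    · rfl
    · rfl
    · rfl
  | B i =>
    fin_cases d
    · rfl
    · rfl
    · rfl
    · rcases Nat.lt_or_ge i.1 n with h | h
      · simp only [Fin.reduceFinMk]
        rw [glue_B3 n i.1 (by omega)]; simp [col]
      · have : i = Fin.last n := Fin.ext (by simp; omega)
        subst this
        simp only [Fin.reduceFinMk, glue_B3_last]; simp [col]
  | T i =>
    fin_cases d
    · rfl
    · obtain ⟨j, hj⟩ := i
      cases j with
      | zero => simp [glue, col]
      | succ j =>
        simp only [Fin.mk_one, glue_T1_succ n j hj]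
        simp [col]
    · rcases Nat.lt_or_ge i.1 n with h | h
      · simp only [Fin.reduceFinMk]
        rw [glue_T2 n i.1 (by omega)]; simp [col]
      · have : i = Fin.last n := Fin.ext (by simp; omega)
        subst this
        simp only [Fin.reduceFinMk, glue_T2_last]; simp [col]
    · rfl
  | P => fin_cases d <;> simp [glue, col]
  | Q => fin_cases d <;> simp [glue, col]
  | R => fin_cases d <;> simp [glue, col]
  | S => fin_cases d <;> simp [glue, col]

lemma col_relation (n : ℕ) (t k : ℂ) (ht : t ≠ 1) (hk : k * (t ^ 2 - t + 1) = - (t * (t - 1)))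
    (hm : ((n : ℂ) + 1) * k = t / (t - 1) + 1 - t) (x : Cr n × Fin 4) :
    (knot n).relation t (col n t k) x = 0 := by
  have ht' : t - 1 ≠ 0 := sub_ne_zero.mpr ht
  have h33 : (3 : Fin 4) + 3 = 2 := rfl
  have h31 : (3 : Fin 4) + 1 = 0 := rfl
  have h32 : (3 : Fin 4) + 2 = 1 := rfl
  have h13 : (1 : Fin 4) + 3 = 0 := rfl
  have h11 : (1 : Fin 4) + 1 = 2 := rfl
  have h12 : (1 : Fin 4) + 2 = 3 := rfl
  have hoA : ∀ i, (knot n).overOut (A i) = 3 := fun i => rfl
  have hoB : ∀ i, (knot n).overOut (B i) = 3 := fun i => rfl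
  have hoT : ∀ i, (knot n).overOut (T i) = 1 := fun i => rfl
  have hoP : (knot n).overOut (P) = 3 := rfl
  have hoQ : (knot n).overOut (Q) = 1 := rfl
  have hoR : (knot n).overOut (R) = 1 := rfl
  have hoS : (knot n).overOut (S) = 3 := rfl
  have hover : ∀ (c : Cr n) (d : Fin 4), (d = 1 ∨ d = 3) →
      (knot n).relation t (col n t k) (c, d) = col n t k (c, d) - col n t k (c, d + 2) := by
    intro c d hd
    unfold Diagram.relation
    rw [if_pos (show (knot n).IsOver (c, d) from hd)]
    rfl
  have hunder : ∀ (c : Cr n) (d : Fin 4), ¬ (d = 1 ∨ d = 3) →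
      (knot n).relation t (col n t k) (c, d) = col n t k (c, (knot n).overOut c + 1)
        - t * col n t k (c, (knot n).overOut c + 3)
        - (1 - t) * col n t k (c, (knot n).overOut c) := by
    intro c d hd
    unfold Diagram.relation
    rw [if_neg (show ¬ (knot n).IsOver (c, d) from hd)]
    rfl
  obtain ⟨c, d⟩ := x
  by_cases hd : d = 1 ∨ d = 3
  · show (knot n).relation t (col n t k) (c, d) = 0
    rw [hover c d hd]
    rcases hd with rfl | rfl
    · rw [h12]; cases c <;> simp [col]
    · rw [h32]; cases c <;> simp [col]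
  · show (knot n).relation t (col n t k) (c, d) = 0
    rw [hunder c d hd]
    cases c with
    | A i =>
      rw [hoA, h31, h33]; simp only [col]; linear_combination (-1 : ℂ) * hk
    | B i =>
      rw [hoB, h31, h33]; simp only [col]; ring
    | T i =>
      rw [hoT, h11, h13]; simp only [col]; linear_combination hk
    | P =>
      rw [hoP, h31, h33]; simp only [col]; field_simp; ring
    | Q =>
      rw [hoQ, h11, h13]; simp only [col]; field_simp; ring
    | R =>
      rw [hoR, h11, h13]; simp only [col]; linear_combination (-1 : ℂ) * hm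
    | S =>
      rw [hoS, h31, h33]; simp only [col, hm]; field_simp; ring

/-! ## The main theorem -/

/-- the polynomial equation has a solution `t ≥ m = n + 1`. -/
lemma exists_t (n : ℕ) : ∃ t : ℝ, (n : ℝ) + 1 ≤ t ∧
    (t ^ 2 - 3 * t + 1) * (t ^ 2 - t + 1) = ((n : ℝ) + 1) * (t * (t - 1) ^ 2) := by
  have hm1 : (1 : ℝ) ≤ (n : ℝ) + 1 := by
    have : (0 : ℝ) ≤ (n : ℝ) := Nat.cast_nonneg n
    linarith
  generalize hm : (n : ℝ) + 1 = m at *
  let f : ℝ → ℝ := fun t => (t ^ 2 - 3 * t + 1) * (t ^ 2 - t + 1) - m * (t * (t - 1) ^ 2)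
  have hf : ContinuousOn f (Set.Icc m (m + 4)) := by
    apply Continuous.continuousOn
    simp only [f]
    fun_prop
  have h0 : f m ≤ 0 := by
    simp only [f]
    nlinarith [sq_nonneg (m - 1), mul_nonneg (by linarith : (0:ℝ) ≤ m) (sq_nonneg (m - 1))]
  have h1 : 0 ≤ f (m + 4) := by
    simp only [f]
    nlinarith [sq_nonneg (m - 1), mul_nonneg (by linarith : (0:ℝ) ≤ m) (sq_nonneg m)]
  obtain ⟨t, ht, hft⟩ := intermediate_value_Icc (by linarith : m ≤ m + 4) hf ⟨h0, h1⟩
  refine ⟨t, ht.1, ?_⟩
  simp only [f] at hft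
  linarith

/-- **The real parts of the zeros of the Alexander polynomials of alternating knots are unbounded
from above.**  For every real number `K` there is an alternating diagram `D` of a knot such that
the Alexander polynomial of `D` has a zero `z ≠ 0` with `K < Re z`. -/
theorem result (K : ℝ) :
    ∃ D : Diagram, D.IsKnotDiagram ∧ D.IsAlternating ∧
      ∃ z : ℂ, z ≠ 0 ∧ K < z.re ∧
        ∀ x₀ : D.Edge, D.alexander x₀ ≠ 0 ∧ aeval z (D.alexander x₀) = 0 := by
  obtain ⟨n, hn⟩ := exists_nat_gt K
  obtain ⟨t, ht, heq⟩ := exists_t n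
  have hn0 : (0 : ℝ) ≤ (n : ℝ) := Nat.cast_nonneg n
  refine ⟨knot n, knot_isKnot n, knot_alternating n, (t : ℂ), ?_, ?_, ?_⟩
  · have : t ≠ 0 := by linarith [show (1 : ℝ) ≤ t by linarith] |> ne_of_gt
    exact_mod_cast this
  · rw [Complex.ofReal_re]; linarith
  · intro x₀
    have hne1 : t ≠ 1 := by
      intro h
      rw [h] at heq
      norm_num at heq
    have hF : t ^ 2 - t + 1 ≠ 0 := by nlinarith [sq_nonneg (t - 1), sq_nonneg t]
    refine ⟨(knot n).alexander_ne_zero (knot_isKnot n).2.1 x₀, ?_⟩
    have hne1' : (t : ℂ) ≠ 1 := by exact_mod_cast hne1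
    have hne1'' : (t : ℂ) - 1 ≠ 0 := sub_ne_zero.mpr hne1'
    have hF' : (t : ℂ) ^ 2 - t + 1 ≠ 0 := by exact_mod_cast hF
    have heq' : ((t : ℂ) ^ 2 - 3 * t + 1) * ((t : ℂ) ^ 2 - t + 1)
        = ((n : ℂ) + 1) * ((t : ℂ) * ((t : ℂ) - 1) ^ 2) := by exact_mod_cast heq
    refine (knot n).aeval_alexander_eq_zero (t : ℂ)
      (col n t (-((t : ℂ) * (t - 1)) / ((t : ℂ) ^ 2 - t + 1))) (col_glue n _ _) ?_ ?_ x₀
    · intro x _
      apply col_relation n _ _ hne1'
      · exact div_mul_cancel₀ _ hF'
      · have e1 : (t : ℂ) / ((t : ℂ) - 1) + 1 - t = -((t : ℂ) ^ 2 - 3 * t + 1) / ((t : ℂ) - 1) := by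
          rw [eq_div_iff hne1'', sub_mul, add_mul, div_mul_cancel₀ _ hne1'']
          ring
        rw [e1, ← mul_div_assoc, div_eq_div_iff hF' hne1'']
        linear_combination heq'
    · refine ⟨(P, 3), (Q, 2), ?_⟩
      simp [col]

end Pool.Agent.V11193.AlternatingZeros
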