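import Mathlib

/-!
Basic definitions and the shifting lemma for the proof that every graph has a proper colouring with
prescribed class sizes `n i ≤ |V| / (Δ+1)` (adaptation of the Kierstead-Kostochka proof of the
Hajnal-Szemerédi theorem).
-/

open Finset Classical

namespace Pool.Agent.V11193.PresCol

variable {V : Type*} {K : Type*}

/-- number of neighbours of `v` in `T` -/
noncomputable def dg (G : SimpleGraph V) (T : Finset V) (v : V) : ℕ :=
  (T.filter (fun x => G.Adj v x)).card

/-- `f` is proper on `S` -/
def Proper (G : SimpleGraph V) (S : Finset V) (f : V → K) : Prop :=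
  ∀ u ∈ S, ∀ v ∈ S, G.Adj u v → f u ≠ f v

/-- colour class -/
noncomputable def cls (S : Finset V) (f : V → K) (c : K) : Finset V := S.filter (fun v => f v = c)

/-- some vertex of colour `c` can be moved to colour `d` -/
def E (G : SimpleGraph V) (S : Finset V) (f : V → K) (c d : K) : Prop :=
  ∃ y ∈ cls S f c, ∀ x ∈ cls S f d, ¬ G.Adj y x

/-- a relation restricted to a finite set -/
def Rs (E : K → K → Prop) (D : Finset K) (c d : K) : Prop := c ∈ D ∧ d ∈ D ∧ E c d

theorem mem_cls {S : Finset V} {f : V → K} {c : K} {v : V} : v ∈ cls S f c ↔ v ∈ S ∧ f v = c := by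
  simp [cls]

theorem Rs_mono {E : K → K → Prop} {D D' : Finset K} (h : D ⊆ D') {x t : K}
    (hx : Relation.ReflTransGen (Rs E D) x t) : Relation.ReflTransGen (Rs E D') x t := by
  refine Relation.ReflTransGen.mono ?_ _ _ hx
  rintro a b ⟨ha, hb, hE⟩
  exact ⟨h ha, h hb, hE⟩

/-- last visit -/
theorem last_visit {E : K → K → Prop} {D : Finset K} {c d : K} (hcd : c ≠ d)
    (h : Relation.ReflTransGen (Rs E D) c d) :
    ∃ c1 ∈ D, c1 ≠ c ∧ E c c1 ∧ Relation.ReflTransGen (Rs E (D.erase c)) c1 d := by
  have key : ∀ x, Relation.ReflTransGen (Rs E D) x d →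
      (x ≠ c ∧ Relation.ReflTransGen (Rs E (D.erase c)) x d) ∨
      (∃ c1 ∈ D, c1 ≠ c ∧ E c c1 ∧ Relation.ReflTransGen (Rs E (D.erase c)) c1 d) := by
    intro x hx
    induction hx using Relation.ReflTransGen.head_induction_on with
    | refl => exact Or.inl ⟨hcd.symm, Relation.ReflTransGen.refl⟩
    | head hab hbc ih =>
      rename_i a b
      rcases ih with ⟨hb, ih⟩ | ih
      · by_cases hac : a = c
        · right
          refine ⟨b, hab.2.1, hb, ?_, ih⟩
          rw [← hac]; exact hab.2.2
        · left
          refine ⟨hac, Relation.ReflTransGen.head ⟨?_, ?_, hab.2.2⟩ ih⟩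
          · exact Finset.mem_erase.2 ⟨hac, hab.1⟩
          · exact Finset.mem_erase.2 ⟨hb, hab.2.1⟩
      · exact Or.inr ih
  rcases key c h with ⟨h1, _⟩ | h1
  · exact absurd rfl h1
  · exact h1

/-- avoiding a vertex that does not reach the target -/
theorem avoid {E : K → K → Prop} {D : Finset K} {w t : K}
    (hw : ¬ Relation.ReflTransGen (Rs E D) w t) {x : K}
    (hx : Relation.ReflTransGen (Rs E D) x t) :
    Relation.ReflTransGen (Rs E (D.erase w)) x t := by
  induction hx using Relation.ReflTransGen.head_induction_on with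
  | refl => exact Relation.ReflTransGen.refl
  | head hab hbc ih =>
    rename_i a b
    refine Relation.ReflTransGen.head ⟨?_, ?_, hab.2.2⟩ ih
    · refine Finset.mem_erase.2 ⟨?_, hab.1⟩
      rintro rfl
      exact hw (Relation.ReflTransGen.head hab hbc)
    · refine Finset.mem_erase.2 ⟨?_, hab.2.1⟩
      rintro rfl
      exact hw hbc

/-- the terminal structure -/
theorem terminal {E : K → K → Prop} {D : Finset K} {t : K} (ht : t ∈ D)
    (hacc : ∀ x ∈ D, Relation.ReflTransGen (Rs E D) x t) (hD : 2 ≤ D.card) :
    ∃ U ∈ D, ∃ T : Finset K, T ⊆ D.erase U ∧ T.Nonempty ∧ t ∉ T ∧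
      (∀ W ∈ T, ∀ X ∈ D.erase W, Relation.ReflTransGen (Rs E (D.erase W)) X t) ∧
      (∀ W ∈ T, ∀ X ∈ D, X ∉ T → X ≠ U → ¬ E W X) := by
  -- T U
  set TT : K → Finset K := fun U => (D.erase U).filter
    (fun X => U = t ∨ ¬ Relation.ReflTransGen (Rs E (D.erase U)) X t) with hTT
  have hne : (D.filter (fun U => (TT U).Nonempty)).Nonempty := by
    refine ⟨t, Finset.mem_filter.2 ⟨ht, ?_⟩⟩
    have : (D.erase t).Nonempty := by
      rw [← Finset.card_pos, Finset.card_erase_of_mem ht]; omega
    obtain ⟨x, hx⟩ := this
    exact ⟨x, Finset.mem_filter.2 ⟨hx, Or.inl rfl⟩⟩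
  obtain ⟨U, hU, hmin⟩ := Finset.exists_min_image _ (fun U => (TT U).card) hne
  rw [Finset.mem_filter] at hU
  obtain ⟨hUD, hUne⟩ := hU
  have htT : t ∉ TT U := by
    intro h
    rw [hTT] at h
    simp only [Finset.mem_filter, Finset.mem_erase] at h
    obtain ⟨⟨h1, _⟩, h2⟩ := h
    rcases h2 with h2 | h2
    · exact h1 h2.symm
    · exact h2 Relation.ReflTransGen.refl
  -- for W in TT U
  have hnr : ∀ W ∈ TT U, U ≠ t → ¬ Relation.ReflTransGen (Rs E (D.erase U)) W t := by
    intro W hW hUt
    have := (Finset.mem_filter.1 hW).2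
    rcases this with h | h
    · exact absurd h hUt
    · exact h
  have hUW : ∀ W ∈ TT U, Relation.ReflTransGen (Rs E (D.erase W)) U t := by
    intro W hW
    by_cases hUt : U = t
    · rw [hUt]
    · obtain ⟨c1, hc1D, hc1U, hE, hR⟩ := last_visit hUt (hacc U hUD)
      have hnW := hnr W hW hUt
      have h2 := avoid hnW hR
      have hWU : W ≠ U := (Finset.mem_erase.1 (Finset.mem_filter.1 hW).1).1
      have hcW : c1 ≠ W := by
        rintro rfl
        exact hnW hR
      refine Relation.ReflTransGen.head ⟨?_, ?_, hE⟩ (Rs_mono ?_ h2)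
      · exact Finset.mem_erase.2 ⟨hWU.symm, hUD⟩
      · exact Finset.mem_erase.2 ⟨hcW, hc1D⟩
      · exact Finset.erase_subset_erase _ (Finset.erase_subset _ _)
  have hterm : ∀ W ∈ TT U, ∀ X ∈ D.erase W, Relation.ReflTransGen (Rs E (D.erase W)) X t := by
    intro W hW
    have hWD : W ∈ D := Finset.mem_of_mem_erase (Finset.mem_filter.1 hW).1
    have hWU : W ≠ U := (Finset.mem_erase.1 (Finset.mem_filter.1 hW).1).1
    have hWt : W ≠ t := by
      rintro rfl
      exact htT hW
    by_contra hcon
    push Not at hcon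
    obtain ⟨X, hXD, hX⟩ := hcon
    have hWne : (TT W).Nonempty := ⟨X, Finset.mem_filter.2 ⟨hXD, Or.inr hX⟩⟩
    have h1 := hmin W (Finset.mem_filter.2 ⟨hWD, hWne⟩)
    have hsub : TT W ⊆ (TT U).erase W := by
      intro Y hY
      have hY1 := Finset.mem_filter.1 hY
      have hYW : Y ≠ W := (Finset.mem_erase.1 hY1.1).1
      have hYD : Y ∈ D := (Finset.mem_erase.1 hY1.1).2
      have hYn : ¬ Relation.ReflTransGen (Rs E (D.erase W)) Y t := by
        rcases hY1.2 with h | h
        · exact absurd h hWt
        · exact h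
      refine Finset.mem_erase.2 ⟨hYW, Finset.mem_filter.2 ⟨Finset.mem_erase.2 ⟨?_, hYD⟩, ?_⟩⟩
      · rintro rfl
        exact hYn (hUW W hW)
      · by_cases hUt : U = t
        · exact Or.inl hUt
        · right
          intro hYr
          apply hYn
          have h2 := avoid (hnr W hW hUt) hYr
          exact Rs_mono (Finset.erase_subset_erase _ (Finset.erase_subset _ _)) h2
    have h2 := Finset.card_le_card hsub
    rw [Finset.card_erase_of_mem hW] at h2
    have h3 : 0 < (TT U).card := Finset.card_pos.2 hUne
    omega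
  refine ⟨U, hUD, TT U, Finset.filter_subset _ _, hUne, htT, hterm, ?_⟩
  intro W hW X hXD hXT hXU hE
  apply hXT
  refine Finset.mem_filter.2 ⟨Finset.mem_erase.2 ⟨hXU, hXD⟩, ?_⟩
  by_cases hUt : U = t
  · exact Or.inl hUt
  · right
    intro hXr
    apply hnr W hW hUt
    refine Relation.ReflTransGen.head ⟨(Finset.mem_filter.1 hW).1, ?_, hE⟩ hXr
    exact Finset.mem_erase.2 ⟨hXU, hXD⟩

theorem cls_update (S : Finset V) (f : V → K) (y : V) (c1 : K) (hy : y ∈ S) (e : K) :
    (cls S (Function.update f y c1) e).card + (if e = f y then 1 else 0) =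
      (cls S f e).card + (if e = c1 then 1 else 0) := by
  have h1 : (cls S (Function.update f y c1) e).card
      = ((cls S f e).erase y).card + (if e = c1 then 1 else 0) := by
    by_cases hec : e = c1
    · have : cls S (Function.update f y c1) e = insert y ((cls S f e).erase y) := by
        ext v
        simp only [mem_cls, Finset.mem_insert, Finset.mem_erase]
        by_cases hv : v = y
        · subst hv; simp [hy, hec]
        · simp [hv, Function.update_of_ne hv]
      rw [this, Finset.card_insert_of_notMem (by simp)]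
      simp [hec]
    · have : cls S (Function.update f y c1) e = ((cls S f e).erase y) := by
        ext v
        simp only [mem_cls, Finset.mem_erase]
        by_cases hv : v = y
        · subst hv; simp [Ne.symm hec]
        · simp [hv, Function.update_of_ne hv]
      rw [this]; simp [hec]
  have h2 : ((cls S f e).erase y).card + (if e = f y then 1 else 0) = (cls S f e).card := by
    by_cases hef : e = f y
    · have hmem : y ∈ cls S f e := mem_cls.2 ⟨hy, hef.symm⟩
      rw [Finset.card_erase_of_mem hmem]
      have := Finset.card_pos.2 ⟨y, hmem⟩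
      rw [if_pos hef]
      omega
    · have hmem : y ∉ cls S f e := fun h => hef (mem_cls.1 h).2.symm
      rw [Finset.erase_eq_of_notMem hmem]; simp [hef]
  omega

/-- the shifting lemma -/
theorem shift (G : SimpleGraph V) (S : Finset V) : ∀ (m : ℕ) (D : Finset K) (f : V → K) (c d : K),
    D.card ≤ m → c ∈ D → Relation.ReflTransGen (Rs (E G S f) D) c d → Proper G S f →
    ∃ f' : V → K, Proper G S f' ∧ (∀ v, f v ∉ D → f' v = f v) ∧ (∀ v, f v ∈ D → f' v ∈ D) ∧
      (∀ v, f' v = c → f v = c) ∧
      (∀ e, (cls S f' e).card + (if e = c then 1 else 0) =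
        (cls S f e).card + (if e = d then 1 else 0)) := by
  intro m
  induction m with
  | zero =>
    intro D f c d hD hc
    have : D = ∅ := Finset.card_eq_zero.1 (by omega)
    simp [this] at hc
  | succ m ih =>
    intro D f c d hD hc hR hP
    by_cases hcd : c = d
    · subst hcd
      exact ⟨f, hP, fun _ _ => rfl, fun _ h => h, fun _ h => h, fun _ => rfl⟩
    obtain ⟨c1, hc1D, hc1c, ⟨y, hy, hyn⟩, hR1⟩ := last_visit hcd hR
    have hyS : y ∈ S := (mem_cls.1 hy).1
    have hfy : f y = c := (mem_cls.1 hy).2
    obtain ⟨f1, hP1, h1, h2, h3, h4⟩ := ih (D.erase c) f c1 d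
      (by rw [Finset.card_erase_of_mem hc]; omega) (Finset.mem_erase.2 ⟨hc1c, hc1D⟩) hR1 hP
    have hf1y : f1 y = c := by
      rw [h1 y (by rw [hfy]; simp), hfy]
    refine ⟨Function.update f1 y c1, ?_, ?_, ?_, ?_, ?_⟩
    · intro u hu v hv huv
      by_cases huy : u = y
      · have hvy : v ≠ y := by
          rintro rfl; rw [huy] at huv; exact G.loopless.irrefl _ huv
        rw [huy, Function.update_self, Function.update_of_ne hvy]
        intro he
        have := h3 v he.symm
        exact hyn v (mem_cls.2 ⟨hv, this⟩) (huy ▸ huv)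
      · by_cases hvy : v = y
        · rw [hvy, Function.update_self, Function.update_of_ne huy]
          intro he
          have := h3 u he
          exact hyn u (mem_cls.2 ⟨hu, this⟩) (hvy ▸ huv.symm)
        · rw [Function.update_of_ne huy, Function.update_of_ne hvy]
          exact hP1 u hu v hv huv
    · intro v hv
      have hvy : v ≠ y := by
        rintro rfl; rw [hfy] at hv; exact hv hc
      rw [Function.update_of_ne hvy]
      exact h1 v (fun h => hv (Finset.mem_of_mem_erase h))
    · intro v hv
      by_cases hvy : v = y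
      · rw [hvy, Function.update_self]; exact hc1D
      · rw [Function.update_of_ne hvy]
        by_cases hvc : f v = c
        · rw [h1 v (by rw [hvc]; simp), hvc]; exact hc
        · exact Finset.mem_of_mem_erase (h2 v (Finset.mem_erase.2 ⟨hvc, hv⟩))
    · intro v hv
      by_cases hvy : v = y
      · rw [hvy, Function.update_self] at hv; exact absurd hv hc1c
      · rw [Function.update_of_ne hvy] at hv
        by_contra hvc
        by_cases hvD : f v ∈ D
        · have := h2 v (Finset.mem_erase.2 ⟨hvc, hvD⟩)
          rw [hv] at this; simp at this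
        · rw [h1 v (fun h => hvD (Finset.mem_of_mem_erase h))] at hv
          exact hvc hv
    · intro e
      have hu := cls_update S f1 y c1 hyS e
      rw [hf1y] at hu
      have h4e := h4 e
      omega

end Pool.Agent.V11193.PresCol
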