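import Pool.Agent.V11193.PresColA

/-!
The counting lemma for the proof that every graph has a proper colouring with prescribed class
sizes `n i ≤ |V| / (Δ+1)`.
-/

open Finset Classical

namespace Pool.Agent.V11193.PresCol

variable {V : Type*} {K : Type*}

theorem dg_decomp (G : SimpleGraph V) (S : Finset V) (f : V → K) (D : Finset K) (v : V) :
    dg G S v = ∑ c ∈ D, dg G (cls S f c) v + dg G (S.filter (fun x => f x ∉ D)) v := by
  unfold dg
  rw [← Finset.card_filter_add_card_filter_not (s := S.filter (fun x => G.Adj v x))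
    (fun x => f x ∈ D)]
  congr 1
  · rw [Finset.card_eq_sum_card_fiberwise (f := f) (t := D)]
    · apply Finset.sum_congr rfl
      intro c hc
      congr 1
      ext x
      simp only [Finset.mem_filter, mem_cls]
      constructor
      · rintro ⟨⟨⟨h1, h2⟩, _⟩, h3⟩
        exact ⟨⟨h1, h3⟩, h2⟩
      · rintro ⟨⟨h1, h3⟩, h2⟩
        exact ⟨⟨⟨h1, h2⟩, h3 ▸ hc⟩, h3⟩
    · intro x hx
      simp only [Finset.coe_filter, Set.mem_setOf_eq, Finset.mem_filter] at hx
      exact hx.2
  · congr 1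
    ext x
    simp only [Finset.mem_filter]
    tauto

theorem dg_pos {G : SimpleGraph V} {T : Finset V} {v : V} (h : ∃ x ∈ T, G.Adj v x) :
    1 ≤ dg G T v := by
  obtain ⟨x, hx, hA⟩ := h
  exact Finset.card_pos.2 ⟨x, Finset.mem_filter.2 ⟨hx, hA⟩⟩

theorem dg_mono {G : SimpleGraph V} {T T' : Finset V} {v : V} (h : T ⊆ T') :
    dg G T v ≤ dg G T' v :=
  Finset.card_le_card (Finset.filter_subset_filter _ h)

theorem card_le_sum_dg (G : SimpleGraph V) (S : Finset V) (f : V → K) (A A' : Finset K) (v : V)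
    (hA : A' ⊆ A) (h : ∀ c ∈ A', ∃ x ∈ cls S f c, G.Adj v x) :
    A'.card ≤ ∑ c ∈ A, dg G (cls S f c) v := by
  calc A'.card = ∑ c ∈ A', 1 := by simp
    _ ≤ ∑ c ∈ A', dg G (cls S f c) v := Finset.sum_le_sum (fun c hc => dg_pos (h c hc))
    _ ≤ _ := Finset.sum_le_sum_of_subset hA

theorem unique_of_dg_lt {G : SimpleGraph V} {T : Finset V} {v x0 : V} (h : dg G T v < 2)
    (hx0 : x0 ∈ T) (hA : G.Adj v x0) : ∀ x ∈ T, G.Adj v x → x = x0 := by
  intro x hx hAx
  by_contra hne
  have : 2 ≤ dg G T v := by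
    unfold dg
    rw [← Nat.lt_iff_add_one_le, Finset.one_lt_card]
    exact ⟨x, Finset.mem_filter.2 ⟨hx, hAx⟩, x0, Finset.mem_filter.2 ⟨hx0, hA⟩, hne⟩
  omega

/-- the first counting step -/
theorem count1 (G : SimpleGraph V) (S : Finset V) (f : V → K) (A T : Finset K) (U W : K)
    (r k q' : ℕ)
    (h1 : ∀ y ∈ S, f y ∉ A → ∀ c ∈ A, ∃ x ∈ cls S f c, G.Adj y x)
    (hdeg : ∀ v ∈ S, dg G S v ≤ r)
    (hr : r + 1 = A.card + q')
    (hB : k * q' + 1 ≤ (S.filter (fun x => f x ∉ A)).card)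
    (hU : U ∈ A) (hT : T ⊆ A.erase U) (hW : W ∈ T)
    (hk : (cls S f W).card ≤ k)
    (hP2 : ∀ X ∈ A, X ∉ T → X ≠ U → ¬ E G S f W X)
    (H : ∀ z ∈ cls S f W, ∀ y1 ∈ S, f y1 ∉ A → G.Adj z y1 →
      (∀ x ∈ cls S f W, G.Adj y1 x → x = z) →
      (∀ X ∈ A, X ≠ W → ∃ x ∈ cls S f X, G.Adj z x)) :
    q' + 1 ≤ T.card := by
  by_contra htq
  push Not at htq
  set B := S.filter (fun x => f x ∉ A) with hBdef
  have hWA : W ∈ A := Finset.mem_of_mem_erase (hT hW)
  set isS : V → Prop := fun x => ∃ y ∈ S, f y ∉ A ∧ G.Adj x y ∧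
    ∀ x' ∈ cls S f W, G.Adj y x' → x' = x with hisS
  have hdec : ∀ v ∈ S, ∑ c ∈ A, dg G (cls S f c) v + dg G B v ≤ r := by
    intro v hv
    have := dg_decomp G S f A v
    rw [← this]; exact hdeg v hv
  -- lower bound of the double sum
  have hlow : ∀ y ∈ B, 2 ≤ ∑ x ∈ cls S f W,
      (if G.Adj y x then (if isS x then 2 else 1) else 0) := by
    intro y hy
    rw [hBdef, Finset.mem_filter] at hy
    obtain ⟨x0, hx0, hA0⟩ := h1 y hy.1 hy.2 W hWA
    by_cases hex : ∃ x ∈ cls S f W, G.Adj y x ∧ isS x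
    · obtain ⟨x, hx, hAx, hSx⟩ := hex
      have := Finset.single_le_sum (f := fun x => (if G.Adj y x then (if isS x then 2 else 1) else 0))
        (s := cls S f W) (fun i _ => Nat.zero_le _) hx
      simp only [hAx, hSx, if_true] at this
      exact this
    · push Not at hex
      have h2 : ∑ x ∈ cls S f W, (if G.Adj y x then (if isS x then 2 else 1) else 0) =
          dg G (cls S f W) y := by
        unfold dg
        rw [Finset.card_filter]
        apply Finset.sum_congr rfl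
        intro x hx
        by_cases hAx : G.Adj y x
        · simp [hAx, hex x hx hAx]
        · simp [hAx]
      rw [h2]
      by_contra hlt
      push Not at hlt
      have hun := unique_of_dg_lt hlt hx0 hA0
      exact hex x0 hx0 hA0 ⟨y, hy.1, hy.2, hA0.symm, hun⟩
  have hup : ∀ x ∈ cls S f W, (∑ y ∈ B,
      (if G.Adj y x then (if isS x then 2 else 1) else 0)) ≤ 2 * q' := by
    intro x hx
    have hxS : x ∈ S := (mem_cls.1 hx).1
    have h2 : (∑ y ∈ B, (if G.Adj y x then (if isS x then 2 else 1) else 0)) =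
        (if isS x then 2 else 1) * dg G B x := by
      unfold dg
      rw [Finset.card_filter, Finset.mul_sum]
      apply Finset.sum_congr rfl
      intro y hy
      simp only [G.adj_comm y x]
      split_ifs <;> simp
    rw [h2]
    have hd := hdec x hxS
    by_cases hS : isS x
    · obtain ⟨y, hyS, hyA, hxy, hyu⟩ := hS
      have h3 := H x hx y hyS hyA hxy hyu
      have h4 := card_le_sum_dg G S f A (A.erase W) x (Finset.erase_subset _ _)
        (fun c hc => h3 c (Finset.mem_of_mem_erase hc) (Finset.mem_erase.1 hc).1)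
      rw [Finset.card_erase_of_mem hWA] at h4
      have h5 : 0 < A.card := Finset.card_pos.2 ⟨W, hWA⟩
      have h6 : dg G B x ≤ q' := by omega
      have h7 : isS x := ⟨y, hyS, hyA, hxy, hyu⟩
      simp only [h7, if_true]
      omega
    · simp only [hS, if_false]
      have h4 := card_le_sum_dg G S f A (A \ insert U T) x Finset.sdiff_subset (by
        intro c hc
        simp only [Finset.mem_sdiff, Finset.mem_insert, not_or] at hc
        have h8 := hP2 c hc.1 hc.2.2 hc.2.1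
        unfold E at h8
        push Not at h8
        exact h8 x hx)
      have h9 : A.card ≤ (A \ insert U T).card + (insert U T).card := by
        have := Finset.le_card_sdiff (insert U T) A
        omega
      have h10 : (insert U T).card ≤ T.card + 1 := Finset.card_insert_le _ _
      omega
  have hsum : 2 * B.card ≤ (cls S f W).card * (2 * q') := by
    calc 2 * B.card = ∑ y ∈ B, 2 := by simp [mul_comm]
      _ ≤ ∑ y ∈ B, ∑ x ∈ cls S f W, (if G.Adj y x then (if isS x then 2 else 1) else 0) :=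
        Finset.sum_le_sum hlow
      _ = ∑ x ∈ cls S f W, ∑ y ∈ B, (if G.Adj y x then (if isS x then 2 else 1) else 0) :=
        Finset.sum_comm
      _ ≤ ∑ x ∈ cls S f W, 2 * q' := Finset.sum_le_sum hup
      _ = _ := by simp
  have h11 : (cls S f W).card * (2 * q') ≤ k * (2 * q') := Nat.mul_le_mul_right _ hk
  have h12 : k * (2 * q') = 2 * (k * q') := by ring
  omega

/-- the second counting step -/
theorem count2 (G : SimpleGraph V) (S : Finset V) (f : V → K) (A T : Finset K)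
    (r k q' : ℕ)
    (h1 : ∀ y ∈ S, f y ∉ A → ∀ c ∈ A, ∃ x ∈ cls S f c, G.Adj y x)
    (hdeg : ∀ v ∈ S, dg G S v ≤ r)
    (hr : r + 1 = A.card + q')
    (hB : k * q' + 1 ≤ (S.filter (fun x => f x ∉ A)).card)
    (hT : T ⊆ A)
    (htq : q' + 1 ≤ T.card)
    (hk : ∀ W ∈ T, (cls S f W).card ≤ k)
    (H : ∀ W ∈ T, ∀ z ∈ cls S f W, ∀ y1 ∈ S, f y1 ∉ A → G.Adj z y1 →
      (∀ x ∈ cls S f W, G.Adj y1 x → x = z) →
      ∀ y2 ∈ S, f y2 ∉ A → y2 ≠ y1 → (∀ x ∈ cls S f W, G.Adj y2 x → x = z) → G.Adj z y2 →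
        G.Adj y1 y2) :
    False := by
  set B := S.filter (fun x => f x ∉ A) with hBdef
  set solo : V → V → Prop := fun z y => G.Adj z y ∧ ∀ x ∈ cls S f (f z), G.Adj y x → x = z
    with hsolo
  set A' := S.filter (fun z => f z ∈ T) with hA'
  have hdec : ∀ v ∈ S, ∑ c ∈ A, dg G (cls S f c) v + dg G B v ≤ r := by
    intro v hv
    have := dg_decomp G S f A v
    rw [← this]; exact hdeg v hv
  have hA'card : A'.card ≤ T.card * k := by
    have : A'.card = ∑ c ∈ T, (cls S f c).card := by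
      rw [hA', Finset.card_eq_sum_card_fiberwise (f := f) (t := T)]
      · apply Finset.sum_congr rfl
        intro c hc
        congr 1
        ext x
        simp only [Finset.mem_filter, mem_cls]
        constructor
        · rintro ⟨⟨a, _⟩, b⟩; exact ⟨a, b⟩
        · rintro ⟨a, b⟩; exact ⟨⟨a, b ▸ hc⟩, b⟩
      · intro x hx
        simp only [Finset.coe_filter, Set.mem_setOf_eq] at hx
        exact hx.2
    rw [this]
    calc ∑ c ∈ T, (cls S f c).card ≤ ∑ c ∈ T, k := Finset.sum_le_sum hk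
      _ = _ := by simp
  set Sz : V → Finset V := fun z => B.filter (fun y => solo z y) with hSz
  -- number of solo neighbours
  have hcnt : ∀ y ∈ B, T.card + 1 + dg G B y ≤ (A'.filter (fun z => solo z y)).card + q' := by
    intro y hy
    have hy' := hy
    rw [hBdef, Finset.mem_filter] at hy'
    have hfib : (A'.filter (fun z => solo z y)).card =
        ∑ W ∈ T, ((cls S f W).filter (fun z => solo z y)).card := by
      rw [Finset.card_eq_sum_card_fiberwise (f := f) (t := T)]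
      · apply Finset.sum_congr rfl
        intro c hc
        congr 1
        ext x
        simp only [hA', Finset.mem_filter, mem_cls]
        constructor
        · rintro ⟨⟨⟨a, _⟩, d⟩, b⟩; exact ⟨⟨a, b⟩, d⟩
        · rintro ⟨⟨a, b⟩, d⟩; exact ⟨⟨⟨a, b ▸ hc⟩, d⟩, b⟩
      · intro x hx
        simp only [hA', Finset.coe_filter, Set.mem_setOf_eq, Finset.mem_filter] at hx
        exact hx.1.2
    have hW2 : ∀ W ∈ T, 2 ≤ dg G (cls S f W) y + ((cls S f W).filter (fun z => solo z y)).card := by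
      intro W hW
      obtain ⟨x0, hx0, hA0⟩ := h1 y hy'.1 hy'.2 W (hT hW)
      by_cases hlt : dg G (cls S f W) y < 2
      · have hun := unique_of_dg_lt hlt hx0 hA0
        have h3 : x0 ∈ (cls S f W).filter (fun z => solo z y) := by
          rw [Finset.mem_filter]
          refine ⟨hx0, hA0.symm, ?_⟩
          rw [(mem_cls.1 hx0).2]
          exact hun
        have h4 := Finset.card_pos.2 ⟨x0, h3⟩
        have h5 := dg_pos ⟨x0, hx0, hA0⟩
        omega
      · omega
    have hsT : 2 * T.card ≤ ∑ W ∈ T, dg G (cls S f W) y +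
        ∑ W ∈ T, ((cls S f W).filter (fun z => solo z y)).card := by
      rw [← Finset.sum_add_distrib]
      calc 2 * T.card = ∑ W ∈ T, 2 := by simp [mul_comm]
        _ ≤ _ := Finset.sum_le_sum hW2
    have hsA : (A \ T).card ≤ ∑ c ∈ A \ T, dg G (cls S f c) y := by
      refine card_le_sum_dg G S f _ _ y (Finset.Subset.refl _) ?_
      intro c hc
      exact h1 y hy'.1 hy'.2 c (Finset.mem_sdiff.1 hc).1
    have hsplit : ∑ c ∈ A \ T, dg G (cls S f c) y + ∑ c ∈ T, dg G (cls S f c) y =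
        ∑ c ∈ A, dg G (cls S f c) y := Finset.sum_sdiff hT
    have hcA : (A \ T).card + T.card = A.card := Finset.card_sdiff_add_card_eq_card hT
    have hd := hdec y hy'.1
    omega
  have hSzle : ∀ y ∈ B, ∀ z ∈ A', solo z y → (Sz z).card ≤ dg G B y + 1 := by
    intro y hy z hz hs
    have hy' := hy
    rw [hBdef, Finset.mem_filter] at hy'
    rw [hA', Finset.mem_filter] at hz
    have hsub : Sz z ⊆ insert y (B.filter (fun x => G.Adj y x)) := by
      intro y2 hy2
      rw [hSz] at hy2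
      simp only [Finset.mem_filter] at hy2
      obtain ⟨hy2B, hs2⟩ := hy2
      rw [Finset.mem_insert]
      by_cases he : y2 = y
      · exact Or.inl he
      · right
        rw [Finset.mem_filter]
        refine ⟨hy2B, ?_⟩
        rw [hBdef, Finset.mem_filter] at hy2B
        exact H (f z) hz.2 z (mem_cls.2 ⟨hz.1, rfl⟩) y hy'.1 hy'.2 hs.1 hs.2 y2 hy2B.1 hy2B.2 he
          hs2.2 hs2.1
    calc (Sz z).card ≤ _ := Finset.card_le_card hsub
      _ ≤ _ := Finset.card_insert_le _ _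
  have hq'pos : ∀ y ∈ B, dg G B y + 1 ≤ q' := by
    intro y hy
    have hy' := hy
    rw [hBdef, Finset.mem_filter] at hy'
    have h3 := card_le_sum_dg G S f A A y (Finset.Subset.refl _)
      (fun c hc => h1 y hy'.1 hy'.2 c hc)
    have hd := hdec y hy'.1
    omega
  have hBne : 0 < B.card := by omega
  obtain ⟨y0, hy0⟩ := Finset.card_pos.1 hBne
  have hq : 0 < q' := by have := hq'pos y0 hy0; omega
  -- weights
  have hlow : ∀ y ∈ B, (T.card : ℚ) / q' ≤
      ∑ z ∈ A', (if solo z y then (1 : ℚ) / (Sz z).card else 0) := by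
    intro y hy
    have hc := hcnt y hy
    have hqy := hq'pos y hy
    set d := dg G B y with hd
    set cnt := (A'.filter (fun z => solo z y)).card with hcntdef
    have h5 : (cnt : ℚ) / (d + 1) ≤
        ∑ z ∈ A', (if solo z y then (1 : ℚ) / (Sz z).card else 0) := by
      have h6 : (cnt : ℚ) / (d + 1) = ∑ z ∈ A', (if solo z y then (1 : ℚ) / (d + 1) else 0) := by
        rw [← Finset.sum_filter, Finset.sum_const, nsmul_eq_mul, ← hcntdef]
        ring
      rw [h6]
      apply Finset.sum_le_sum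
      intro z hz
      by_cases hs : solo z y
      · simp only [hs, if_true]
        have h7 := hSzle y hy z hz hs
        have h8 : 0 < (Sz z).card := Finset.card_pos.2 ⟨y, by
          rw [hSz]; exact Finset.mem_filter.2 ⟨hy, hs⟩⟩
        apply one_div_le_one_div_of_le
        · exact_mod_cast h8
        · exact_mod_cast h7
      · simp [hs]
    refine le_trans ?_ h5
    rw [div_le_div_iff₀ (by exact_mod_cast hq) (by positivity)]
    have hc' : (T.card : ℚ) + 1 + d ≤ cnt + q' := by exact_mod_cast hc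
    have hq2 : (d : ℚ) + 1 ≤ q' := by exact_mod_cast hqy
    have ht2 : (q' : ℚ) + 1 ≤ T.card := by exact_mod_cast htq
    have hq3 : (0 : ℚ) < q' := by exact_mod_cast hq
    nlinarith [mul_nonneg (sub_nonneg.2 hq2) (sub_nonneg.2 ht2),
      mul_nonneg hq3.le (sub_nonneg.2 hc')]
  have hup : ∀ z ∈ A', ∑ y ∈ B, (if solo z y then (1 : ℚ) / (Sz z).card else 0) ≤ 1 := by
    intro z hz
    rw [← Finset.sum_filter, Finset.sum_const, nsmul_eq_mul]
    change ((Sz z).card : ℚ) * (1 / (Sz z).card) ≤ 1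
    by_cases h0 : ((Sz z).card : ℚ) = 0
    · rw [h0]; simp
    · rw [mul_one_div_cancel h0]
  have hfin : (B.card : ℚ) * (T.card / q') ≤ T.card * k := by
    calc (B.card : ℚ) * (T.card / q') = ∑ y ∈ B, ((T.card : ℚ) / q') := by simp
      _ ≤ ∑ y ∈ B, ∑ z ∈ A', (if solo z y then (1 : ℚ) / (Sz z).card else 0) :=
        Finset.sum_le_sum hlow
      _ = ∑ z ∈ A', ∑ y ∈ B, (if solo z y then (1 : ℚ) / (Sz z).card else 0) := Finset.sum_comm
      _ ≤ ∑ z ∈ A', (1 : ℚ) := Finset.sum_le_sum hup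
      _ = A'.card := by simp
      _ ≤ _ := by exact_mod_cast hA'card
  have hq3 : (0 : ℚ) < q' := by exact_mod_cast hq
  have ht3 : (0 : ℚ) < T.card := by
    have : 0 < T.card := by omega
    exact_mod_cast this
  have hB3 : (k : ℚ) * q' + 1 ≤ B.card := by exact_mod_cast hB
  rw [mul_div_assoc', div_le_iff₀ hq3] at hfin
  nlinarith [mul_le_mul_of_nonneg_left hB3 ht3.le]

/-- the counting lemma -/
theorem counting (G : SimpleGraph V) (S : Finset V) (f : V → K) (A T : Finset K) (U : K)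
    (r k q' : ℕ)
    (h1 : ∀ y ∈ S, f y ∉ A → ∀ c ∈ A, ∃ x ∈ cls S f c, G.Adj y x)
    (hdeg : ∀ v ∈ S, dg G S v ≤ r)
    (hr : r + 1 = A.card + q')
    (hB : k * q' + 1 ≤ (S.filter (fun x => f x ∉ A)).card)
    (hU : U ∈ A) (hT : T ⊆ A.erase U) (hTne : T.Nonempty)
    (hk : ∀ W ∈ T, (cls S f W).card ≤ k)
    (hP2 : ∀ W ∈ T, ∀ X ∈ A, X ∉ T → X ≠ U → ¬ E G S f W X) :
    ∃ W ∈ T, ∃ z ∈ cls S f W, ∃ y1 ∈ S, f y1 ∉ A ∧ G.Adj z y1 ∧
      (∀ x ∈ cls S f W, G.Adj y1 x → x = z) ∧
      ((∃ X ∈ A, X ≠ W ∧ ∀ x ∈ cls S f X, ¬ G.Adj z x) ∨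
       ((∀ X ∈ A, X ≠ W → ∃ x ∈ cls S f X, G.Adj z x) ∧
         ∃ y2 ∈ S, f y2 ∉ A ∧ y2 ≠ y1 ∧ (∀ x ∈ cls S f W, G.Adj y2 x → x = z) ∧
           G.Adj z y2 ∧ ¬ G.Adj y1 y2)) := by
  by_contra hcon
  have H : ∀ W ∈ T, ∀ z ∈ cls S f W, ∀ y1 ∈ S, f y1 ∉ A → G.Adj z y1 →
      (∀ x ∈ cls S f W, G.Adj y1 x → x = z) →
      (∀ X ∈ A, X ≠ W → ∃ x ∈ cls S f X, G.Adj z x) := by
    intro W hW z hz y1 hy1 hy1A hzy hun X hX hXW
    by_contra hno
    apply hcon
    refine ⟨W, hW, z, hz, y1, hy1, hy1A, hzy, hun, Or.inl ⟨X, hX, hXW, ?_⟩⟩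
    intro x hx hA
    exact hno ⟨x, hx, hA⟩
  have H2 : ∀ W ∈ T, ∀ z ∈ cls S f W, ∀ y1 ∈ S, f y1 ∉ A → G.Adj z y1 →
      (∀ x ∈ cls S f W, G.Adj y1 x → x = z) →
      ∀ y2 ∈ S, f y2 ∉ A → y2 ≠ y1 → (∀ x ∈ cls S f W, G.Adj y2 x → x = z) → G.Adj z y2 →
        G.Adj y1 y2 := by
    intro W hW z hz y1 hy1 hy1A hzy hun y2 hy2 hy2A hne hun2 hzy2
    by_contra hno
    apply hcon
    exact ⟨W, hW, z, hz, y1, hy1, hy1A, hzy, hun,
      Or.inr ⟨H W hW z hz y1 hy1 hy1A hzy hun, y2, hy2, hy2A, hne, hun2, hzy2, hno⟩⟩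
  obtain ⟨W, hW⟩ := hTne
  have htq := count1 G S f A T U W r k q' h1 hdeg hr hB hU hT hW (hk W hW) (hP2 W hW) (H W hW)
  exact count2 G S f A T r k q' h1 hdeg hr hB (hT.trans (Finset.erase_subset _ _)) htq hk H2

end Pool.Agent.V11193.PresCol
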