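import Pool.Agent.V11193.PresColB

/-!
Assembly: every graph has a proper colouring with prescribed class sizes `n i ≤ |V| / (Δ+1)`.
-/

open Finset Classical

namespace Pool.Agent.V11193.PresCol

variable {V : Type*} {K : Type*}

/-- number of ordered adjacent pairs inside `S` -/
noncomputable def pairs (G : SimpleGraph V) (S : Finset V) : ℕ :=
  ((S ×ˢ S).filter (fun p => G.Adj p.1 p.2)).card

/-- a colouring with the prescribed class sizes -/
def Target (G : SimpleGraph V) (S : Finset V) (C : Finset K) (n : K → ℕ) (f : V → K) : Prop :=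
  (∀ v ∈ S, f v ∈ C) ∧ Proper G S f ∧ ∀ c ∈ C, (cls S f c).card = n c

/-- a colouring with class sizes prescribed up to one missing and one additional vertex -/
def Near (G : SimpleGraph V) (S : Finset V) (C : Finset K) (n : K → ℕ) (cm cp : K)
    (f : V → K) : Prop :=
  (∀ v ∈ S, f v ∈ C) ∧ Proper G S f ∧ cm ∈ C ∧ cp ∈ C ∧ cm ≠ cp ∧
    ∀ c ∈ C, (cls S f c).card + (if c = cm then 1 else 0) = n c + (if c = cp then 1 else 0)

theorem proper_update {G : SimpleGraph V} {S : Finset V} {f : V → K} {y : V} {c : K}
    (hP : Proper G (S.erase y) f) (hy : ∀ x ∈ S, x ≠ y → f x = c → ¬ G.Adj y x) :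
    Proper G S (Function.update f y c) := by
  intro u hu v hv huv
  by_cases huy : u = y
  · have hvy : v ≠ y := by
      rintro rfl; rw [huy] at huv; exact G.loopless.irrefl _ huv
    rw [huy, Function.update_self, Function.update_of_ne hvy]
    intro he
    exact hy v hv hvy he.symm (huy ▸ huv)
  · by_cases hvy : v = y
    · rw [hvy, Function.update_self, Function.update_of_ne huy]
      intro he
      exact hy u hu huy he (hvy ▸ huv.symm)
    · rw [Function.update_of_ne huy, Function.update_of_ne hvy]
      exact hP u (Finset.mem_erase.2 ⟨huy, hu⟩) v (Finset.mem_erase.2 ⟨hvy, hv⟩) huv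

theorem Proper.mono {G : SimpleGraph V} {S S' : Finset V} {f : V → K} (h : S' ⊆ S)
    (hP : Proper G S f) : Proper G S' f :=
  fun u hu v hv huv => hP u (h hu) v (h hv) huv

theorem cls_update_erase (S : Finset V) (f : V → K) (y : V) (c1 : K) (hy : y ∈ S) (e : K) :
    (cls S (Function.update f y c1) e).card =
      (cls (S.erase y) f e).card + (if e = c1 then 1 else 0) := by
  by_cases hec : e = c1
  · have : cls S (Function.update f y c1) e = insert y (cls (S.erase y) f e) := by
      ext v
      simp only [mem_cls, Finset.mem_insert, Finset.mem_erase]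
      by_cases hv : v = y
      · subst hv; simp [hy, hec]
      · simp [hv]
    rw [this, Finset.card_insert_of_notMem (by simp [mem_cls])]
    simp [hec]
  · have : cls S (Function.update f y c1) e = cls (S.erase y) f e := by
      ext v
      simp only [mem_cls, Finset.mem_erase]
      by_cases hv : v = y
      · subst hv; simp [Ne.symm hec]
      · simp [hv]
    rw [this]; simp [hec]

theorem acc_restrict {E : K → K → Prop} {D : Finset K} {t x : K}
    (hx : Relation.ReflTransGen (Rs E D) x t) :
    Relation.ReflTransGen (Rs E (D.filter (fun c => Relation.ReflTransGen (Rs E D) c t))) x t := by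
  induction hx using Relation.ReflTransGen.head_induction_on with
  | refl => exact Relation.ReflTransGen.refl
  | head hab hbc ih =>
    rename_i a b
    refine Relation.ReflTransGen.head ⟨?_, ?_, hab.2.2⟩ ih
    · exact Finset.mem_filter.2 ⟨hab.1, Relation.ReflTransGen.head hab hbc⟩
    · exact Finset.mem_filter.2 ⟨hab.2.1, hbc⟩

theorem exists_free_colour (G : SimpleGraph V) (S : Finset V) (f : V → K) (C : Finset K) (z : V)
    (h : dg G S z < C.card) : ∃ Y ∈ C, ∀ x ∈ S, f x = Y → ¬ G.Adj z x := by
  by_contra hcon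
  push Not at hcon
  have hsub : C ⊆ (S.filter (fun x => G.Adj z x)).image f := by
    intro Y hY
    obtain ⟨x, hx, hfx, hA⟩ := hcon Y hY
    exact Finset.mem_image.2 ⟨x, Finset.mem_filter.2 ⟨hx, hA⟩, hfx⟩
  have h1 := Finset.card_le_card hsub
  have h2 : ((S.filter (fun x => G.Adj z x)).image f).card ≤ dg G S z := Finset.card_image_le
  omega

theorem near_done (G : SimpleGraph V) (S : Finset V) (C : Finset K) (n : K → ℕ) (r k : ℕ)
    (hdeg : ∀ v ∈ S, dg G S v ≤ r) (hk : ∀ c ∈ C, n c ≤ k) (hkr : k * (r + 1) ≤ S.card)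
    (hsum : ∑ c ∈ C, n c = S.card)
    (IH : ∀ (S' : Finset V) (C' : Finset K) (r' : ℕ), pairs G S' < pairs G S →
      (∀ v ∈ S', dg G S' v ≤ r') → (∀ c ∈ C', n c ≤ k) → k * (r' + 1) ≤ S'.card →
      ∑ c ∈ C', n c = S'.card → ∃ g, Target G S' C' n g) :
    ∀ (m : ℕ) (cm cp : K) (f : V → K), Near G S C n cm cp f →
      C.card - (C.filter (fun c => Relation.ReflTransGen (Rs (E G S f) C) c cm)).card = m →
      ∃ h, Target G S C n h := by
  intro m
  induction m using Nat.strong_induction_on with
  | _ m ihm =>
  intro cm cp f hN hm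
  obtain ⟨hfC, hP, hcm, hcp, hne, hsz⟩ := hN
  set A := C.filter (fun c => Relation.ReflTransGen (Rs (E G S f) C) c cm) with hA
  have hAC : A ⊆ C := Finset.filter_subset _ _
  have hcmA : cm ∈ A := Finset.mem_filter.2 ⟨hcm, Relation.ReflTransGen.refl⟩
  by_cases hcpA : cp ∈ A
  · obtain ⟨f', hP', _, h2, _, h4⟩ := shift G S C.card C f cp cm le_rfl hcp
      (Finset.mem_filter.1 hcpA).2 hP
    refine ⟨f', fun v hv => h2 v (hfC v hv), hP', ?_⟩
    intro c hc
    have a1 := h4 c
    have a2 := hsz c hc
    omega
  -- main step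
  have hacc : ∀ x ∈ A, Relation.ReflTransGen (Rs (E G S f) A) x cm := fun x hx =>
    acc_restrict (Finset.mem_filter.1 hx).2
  have h1 : ∀ y ∈ S, f y ∉ A → ∀ c ∈ A, ∃ x ∈ cls S f c, G.Adj y x := by
    intro y hy hyA c hc
    by_contra hno
    apply hyA
    refine Finset.mem_filter.2 ⟨hfC y hy, ?_⟩
    refine Relation.ReflTransGen.head ⟨hfC y hy, hAC hc, y, mem_cls.2 ⟨hy, rfl⟩, ?_⟩
      (Finset.mem_filter.1 hc).2
    intro x hx hAd
    exact hno ⟨x, hx, hAd⟩
  set B := S.filter (fun x => f x ∉ A) with hB
  have hmemB : ∀ v, v ∈ B ↔ v ∈ S ∧ f v ∉ A := fun v => Finset.mem_filter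
  have hdec : ∀ v ∈ S, ∑ c ∈ A, dg G (cls S f c) v + dg G B v ≤ r := by
    intro v hv
    have := dg_decomp G S f A v
    rw [← this]; exact hdeg v hv
  have hBdeg : ∀ y ∈ B, A.card + dg G B y ≤ r := by
    intro y hy
    have hy' := (hmemB y).1 hy
    have h3 := card_le_sum_dg G S f A A y (Finset.Subset.refl _)
      (fun c hc => h1 y hy'.1 hy'.2 c hc)
    have hd := hdec y hy'.1
    omega
  -- size of B
  have hBcard : B.card = ∑ c ∈ C \ A, n c + 1 := by
    have e1 : B.card = ∑ c ∈ C \ A, (cls S f c).card := by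
      rw [hB, Finset.card_eq_sum_card_fiberwise (f := f) (t := C \ A)]
      · apply Finset.sum_congr rfl
        intro c hc
        congr 1
        ext x
        simp only [Finset.mem_filter, mem_cls]
        constructor
        · rintro ⟨⟨a, _⟩, b⟩; exact ⟨a, b⟩
        · rintro ⟨a, b⟩; exact ⟨⟨a, b ▸ (Finset.mem_sdiff.1 hc).2⟩, b⟩
      · intro x hx
        have hx'' := (hmemB x).1 (Finset.mem_coe.1 hx)
        exact Finset.mem_coe.2 (Finset.mem_sdiff.2 ⟨hfC x hx''.1, hx''.2⟩)
    have e2 : ∑ c ∈ C \ A, ((cls S f c).card + (if c = cm then 1 else 0)) =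
        ∑ c ∈ C \ A, (n c + (if c = cp then 1 else 0)) := by
      apply Finset.sum_congr rfl
      intro c hc
      exact hsz c (Finset.mem_sdiff.1 hc).1
    rw [Finset.sum_add_distrib, Finset.sum_add_distrib, Finset.sum_ite_eq', Finset.sum_ite_eq',
      if_neg (by simp [hcmA]), if_pos (Finset.mem_sdiff.2 ⟨hcp, hcpA⟩)] at e2
    omega
  have hsumA : ∑ c ∈ C \ A, n c + ∑ c ∈ A, n c = S.card := by
    rw [Finset.sum_sdiff hAC, hsum]
  have hAle : ∑ c ∈ A, n c ≤ A.card * k := by
    calc ∑ c ∈ A, n c ≤ ∑ c ∈ A, k := Finset.sum_le_sum (fun c hc => hk c (hAC hc))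
      _ = _ := by simp
  obtain ⟨y0, hy0⟩ : B.Nonempty := Finset.card_pos.1 (by omega)
  have har : A.card ≤ r := by have := hBdeg y0 hy0; omega
  obtain ⟨q', hr⟩ : ∃ q', r + 1 = A.card + q' := ⟨r + 1 - A.card, by omega⟩
  have hkq : k * q' ≤ ∑ c ∈ C \ A, n c := by
    have e3 : k * (r + 1) = A.card * k + k * q' := by rw [hr]; ring
    omega
  have hBq : k * q' + 1 ≤ B.card := by omega
  have hk1 : 1 ≤ k := by
    have a2 := hsz cm hcm
    rw [if_pos rfl, if_neg hne] at a2
    have := hk cm hcm
    omega
  -- A has at least two elements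
  have hA2 : 2 ≤ A.card := by
    by_contra hlt
    have hApos : 0 < A.card := Finset.card_pos.2 ⟨cm, hcmA⟩
    have hA1 : A.card = 1 := by omega
    have hq : q' = r := by omega
    have hcmcard : (cls S f cm).card + 1 ≤ k := by
      have a2 := hsz cm hcm
      rw [if_pos rfl, if_neg hne] at a2
      have := hk cm hcm
      omega
    have hd : B.card ≤ (cls S f cm).card * r := by
      calc B.card = ∑ y ∈ B, 1 := by simp
        _ ≤ ∑ y ∈ B, dg G (cls S f cm) y := by
            apply Finset.sum_le_sum
            intro y hy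
            have hy' := (hmemB y).1 hy
            exact dg_pos (h1 y hy'.1 hy'.2 cm hcmA)
        _ = ∑ y ∈ B, ∑ x ∈ cls S f cm, (if G.Adj y x then 1 else 0) := by
            apply Finset.sum_congr rfl; intro y hy; unfold dg; rw [Finset.card_filter]
        _ = ∑ x ∈ cls S f cm, ∑ y ∈ B, (if G.Adj y x then 1 else 0) := Finset.sum_comm
        _ ≤ ∑ x ∈ cls S f cm, r := by
            apply Finset.sum_le_sum
            intro x hx
            have e4 : ∑ y ∈ B, (if G.Adj y x then 1 else 0) = dg G B x := by
              unfold dg; rw [Finset.card_filter]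
              apply Finset.sum_congr rfl; intro y hy; simp only [G.adj_comm y x]
            rw [e4]
            exact (dg_mono (Finset.filter_subset _ _)).trans (hdeg x (mem_cls.1 hx).1)
        _ = _ := by simp
    have e5 : (cls S f cm).card * r ≤ k * r := Nat.mul_le_mul_right _ (by omega)
    rw [hq] at hBq
    omega
  obtain ⟨U, hUA, T, hTU, hTne, hcmT, hterm, hP2⟩ := terminal hcmA hacc hA2
  have hTA : T ⊆ A := hTU.trans (Finset.erase_subset _ _)
  have hclsA : ∀ W ∈ A, (cls S f W).card + (if W = cm then 1 else 0) = n W := by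
    intro W hW
    have a2 := hsz W (hAC hW)
    rw [if_neg (show W ≠ cp by rintro rfl; exact hcpA hW)] at a2
    simpa using a2
  have hkT : ∀ W ∈ T, (cls S f W).card ≤ k := by
    intro W hW
    have a2 := hclsA W (hTA hW)
    have := hk W (hAC (hTA hW))
    omega
  obtain ⟨W, hWT, z, hz, y1, hy1S, hy1A, hzy1, hun1, hcase⟩ :=
    counting G S f A T U r k q' h1 hdeg hr hBq hUA hTU hTne hkT hP2
  have hWA : W ∈ A := hTA hWT
  have hWcm : W ≠ cm := by rintro rfl; exact hcmT hWT
  have hzS : z ∈ S := (mem_cls.1 hz).1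
  have hfz : f z = W := (mem_cls.1 hz).2
  have hzB : z ∉ B := by
    intro h
    exact ((hmemB z).1 h).2 (hfz ▸ hWA)
  have hy1B : y1 ∈ B := (hmemB y1).2 ⟨hy1S, hy1A⟩
  have hzy1ne : z ≠ y1 := by
    rintro rfl
    exact hzB hy1B
  -- colour B - y1
  set Bm := B.erase y1 with hBm
  have hBmcard : Bm.card = ∑ c ∈ C \ A, n c := by
    rw [hBm, Finset.card_erase_of_mem hy1B]; omega
  have hBmS : Bm ⊆ S := (Finset.erase_subset _ _).trans (Finset.filter_subset _ _)
  have hpairs : pairs G Bm < pairs G S := by
    unfold pairs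
    apply Finset.card_lt_card
    rw [Finset.ssubset_iff_of_subset]
    · refine ⟨(z, y1), Finset.mem_filter.2 ⟨Finset.mem_product.2 ⟨hzS, hy1S⟩, hzy1⟩, ?_⟩
      intro h
      have := (Finset.mem_product.1 (Finset.mem_filter.1 h).1).2
      simp [hBm] at this
    · exact Finset.filter_subset_filter _ (Finset.product_subset_product hBmS hBmS)
  have hqpos : 0 < q' := by have := hBdeg y0 hy0; omega
  obtain ⟨g, hgC, hgP, hgsz⟩ := IH Bm (C \ A) (q' - 1) hpairs (by
      intro v hv
      have hvB : v ∈ B := Finset.mem_of_mem_erase hv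
      have b1 := hBdeg v hvB
      have b2 : dg G Bm v ≤ dg G B v := dg_mono (Finset.erase_subset _ _)
      omega) (fun c hc => hk c (Finset.mem_sdiff.1 hc).1)
    (by rw [hBmcard, show q' - 1 + 1 = q' by omega]; exact hkq) hBmcard.symm
  -- glueing a colouring of the complement of B with g
  have glue : ∀ f' : V → K, Proper G S f' → (∀ v, f v ∉ A → f' v = f v) →
      (∀ v, f v ∈ A → f' v ∈ A) →
      Proper G (S.erase y1) (fun v => if v ∈ B then g v else f' v) ∧
      (∀ v ∈ S.erase y1, (if v ∈ B then g v else f' v) ∈ C) ∧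
      (∀ e ∈ A, (cls (S.erase y1) (fun v => if v ∈ B then g v else f' v) e).card =
        (cls S f' e).card) ∧
      (∀ e ∈ C \ A, (cls (S.erase y1) (fun v => if v ∈ B then g v else f' v) e).card = n e) := by
    intro f' hP' hf1 hf2
    have hin : ∀ v ∈ S, v ∉ B → f v ∈ A := by
      intro v hv hvB
      by_contra h
      exact hvB ((hmemB v).2 ⟨hv, h⟩)
    refine ⟨?_, ?_, ?_, ?_⟩
    · intro u hu v hv huv
      have hu' := Finset.mem_erase.1 hu
      have hv' := Finset.mem_erase.1 hv
      by_cases huB : u ∈ B <;> by_cases hvB : v ∈ B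
      · simp only [huB, hvB, if_true]
        exact hgP u (Finset.mem_erase.2 ⟨hu'.1, huB⟩) v (Finset.mem_erase.2 ⟨hv'.1, hvB⟩) huv
      · simp only [huB, hvB, if_true, if_false]
        intro he
        have c1 := hgC u (Finset.mem_erase.2 ⟨hu'.1, huB⟩)
        rw [he] at c1
        exact (Finset.mem_sdiff.1 c1).2 (hf2 v (hin v hv'.2 hvB))
      · simp only [huB, hvB, if_true, if_false]
        intro he
        have c1 := hgC v (Finset.mem_erase.2 ⟨hv'.1, hvB⟩)
        rw [← he] at c1
        exact (Finset.mem_sdiff.1 c1).2 (hf2 u (hin u hu'.2 huB))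
      · simp only [huB, hvB, if_false]
        exact hP' u hu'.2 v hv'.2 huv
    · intro v hv
      have hv' := Finset.mem_erase.1 hv
      by_cases hvB : v ∈ B
      · simp only [hvB, if_true]
        exact (Finset.mem_sdiff.1 (hgC v (Finset.mem_erase.2 ⟨hv'.1, hvB⟩))).1
      · simp only [hvB, if_false]
        exact hAC (hf2 v (hin v hv'.2 hvB))
    · intro e he
      congr 1
      ext v
      simp only [mem_cls, Finset.mem_erase]
      by_cases hvB : v ∈ B
      · simp only [hvB, if_true]
        constructor
        · rintro ⟨⟨c1, c2⟩, c3⟩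
          have c4 := hgC v (Finset.mem_erase.2 ⟨c1, hvB⟩)
          rw [c3] at c4
          exact absurd he (Finset.mem_sdiff.1 c4).2
        · rintro ⟨c2, c3⟩
          have c4 := ((hmemB v).1 hvB).2
          rw [hf1 v c4] at c3
          rw [c3] at c4
          exact absurd he c4
      · simp only [hvB, if_false]
        constructor
        · rintro ⟨⟨c1, c2⟩, c3⟩; exact ⟨c2, c3⟩
        · rintro ⟨c2, c3⟩
          refine ⟨⟨?_, c2⟩, c3⟩
          rintro rfl
          exact hvB hy1B
    · intro e he
      rw [← hgsz e he]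
      congr 1
      ext v
      simp only [mem_cls, hBm, Finset.mem_erase]
      by_cases hvB : v ∈ B
      · simp only [hvB, if_true]
        constructor
        · rintro ⟨⟨c1, c2⟩, c3⟩; exact ⟨⟨c1, trivial⟩, c3⟩
        · rintro ⟨⟨c1, _⟩, c3⟩; exact ⟨⟨c1, ((hmemB v).1 hvB).1⟩, c3⟩
      · simp only [hvB, if_false]
        constructor
        · rintro ⟨⟨c1, c2⟩, c3⟩
          have := hf2 v (hin v c2 hvB)
          rw [c3] at this
          exact absurd this (Finset.mem_sdiff.1 he).2
        · rintro ⟨⟨_, c2⟩, _⟩
          exact absurd c2 (by simp)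
  rcases hcase with ⟨X, hXA, hXW, hXz⟩ | ⟨hnm, y2, hy2S, hy2A, hy21, hun2, hzy2, hnadj⟩
  · -- Case 1
    have hXr := hterm W hWT X (Finset.mem_erase.2 ⟨hXW, hXA⟩)
    obtain ⟨f', hP', g1, g2, g3, g4⟩ := shift G S (A.erase W).card (A.erase W) f X cm le_rfl
      (Finset.mem_erase.2 ⟨hXW, hXA⟩) hXr hP
    have hf1 : ∀ v, f v ∉ A → f' v = f v := fun v hv => g1 v (fun h => hv (Finset.mem_of_mem_erase h))
    have hfW : ∀ v, f v = W → f' v = W := by
      intro v hv
      rw [g1 v (by rw [hv]; simp), hv]
    have hf2 : ∀ v, f v ∈ A → f' v ∈ A := by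
      intro v hv
      by_cases hvW : f v = W
      · rw [hfW v hvW]; exact hWA
      · exact Finset.mem_of_mem_erase (g2 v (Finset.mem_erase.2 ⟨hvW, hv⟩))
    have hfW' : ∀ v, f' v = W → f v = W := by
      intro v hv
      by_contra hvW
      by_cases hvA : f v ∈ A
      · have := g2 v (Finset.mem_erase.2 ⟨hvW, hvA⟩)
        rw [hv] at this; simp at this
      · rw [hf1 v hvA] at hv; exact hvW hv
    obtain ⟨p1, p2, p3, p4⟩ := glue f' hP' hf1 hf2
    set h0 : V → K := fun v => if v ∈ B then g v else f' v with hh0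
    have h0z : h0 z = W := by
      simp only [hh0, hzB, if_false]
      exact hfW z hfz
    have hgmem : ∀ v, v ∈ B → v ≠ y1 → g v ∈ C \ A := fun v hv hne' =>
      hgC v (Finset.mem_erase.2 ⟨hne', hv⟩)
    set h1' : V → K := Function.update h0 z X with hh1
    have q1 : Proper G (S.erase y1) h1' := by
      apply proper_update
      · exact p1.mono (Finset.erase_subset _ _)
      · intro x hx hxz hxX
        have hx' := Finset.mem_erase.1 hx
        by_cases hxB : x ∈ B
        · simp only [hh0, hxB, if_true] at hxX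
          have := hgmem x hxB hx'.1
          rw [hxX] at this
          exact absurd hXA (Finset.mem_sdiff.1 this).2
        · simp only [hh0, hxB, if_false] at hxX
          exact hXz x (mem_cls.2 ⟨hx'.2, g3 x hxX⟩)
    refine ⟨Function.update h1' y1 W, ?_, ?_, ?_⟩
    · intro v hv
      by_cases hvy : v = y1
      · rw [hvy, Function.update_self]; exact hAC hWA
      · rw [Function.update_of_ne hvy]
        by_cases hvz : v = z
        · rw [hvz, hh1, Function.update_self]; exact hAC hXA
        · rw [hh1, Function.update_of_ne hvz]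
          exact p2 v (Finset.mem_erase.2 ⟨hvy, hv⟩)
    · apply proper_update q1
      intro x hx hxy hxW hadj
      by_cases hxz : x = z
      · rw [hxz, hh1, Function.update_self] at hxW
        exact hXW hxW
      · rw [hh1, Function.update_of_ne hxz] at hxW
        by_cases hxB : x ∈ B
        · simp only [hh0, hxB, if_true] at hxW
          have := hgmem x hxB hxy
          rw [hxW] at this
          exact absurd hWA (Finset.mem_sdiff.1 this).2
        · simp only [hh0, hxB, if_false] at hxW
          exact hxz (hun1 x (mem_cls.2 ⟨hx, hfW' x hxW⟩) hadj)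
    · intro c hc
      have s1 := cls_update_erase S h1' y1 W hy1S c
      have s2 := cls_update (S.erase y1) h0 z X (Finset.mem_erase.2 ⟨hzy1ne, hzS⟩) c
      rw [← hh1, h0z] at s2
      by_cases hcA : c ∈ A
      · have s3 := p3 c hcA
        have s4 := g4 c
        have s5 := hclsA c hcA
        omega
      · have s3 := p4 c (Finset.mem_sdiff.2 ⟨hc, hcA⟩)
        rw [if_neg (show c ≠ W by rintro rfl; exact hcA hWA)] at s1 s2
        rw [if_neg (show c ≠ X by rintro rfl; exact hcA hXA)] at s2
        omega
  · -- Case 2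
    have hy2B : y2 ∈ B := (hmemB y2).2 ⟨hy2S, hy2A⟩
    have hdz : dg G Bm z + 1 ≤ q' := by
      have t1 := hdec z hzS
      have t2 := card_le_sum_dg G S f A (A.erase W) z (Finset.erase_subset _ _)
        (fun c hc => hnm c (Finset.mem_of_mem_erase hc) (Finset.mem_erase.1 hc).1)
      rw [Finset.card_erase_of_mem hWA] at t2
      have t3 : dg G Bm z + 1 ≤ dg G B z := by
        unfold dg
        have : (Bm.filter (fun x => G.Adj z x)) ⊂ (B.filter (fun x => G.Adj z x)) := by
          rw [Finset.ssubset_iff_of_subset (Finset.filter_subset_filter _ (Finset.erase_subset _ _))]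
          exact ⟨y1, Finset.mem_filter.2 ⟨hy1B, hzy1⟩, by simp [hBm]⟩
        exact Finset.card_lt_card this
      have t4 : 0 < A.card := Finset.card_pos.2 ⟨cm, hcmA⟩
      omega
    have hCA : q' ≤ (C \ A).card := by
      have u1 : ∑ c ∈ C \ A, n c ≤ (C \ A).card * k := by
        calc ∑ c ∈ C \ A, n c ≤ ∑ c ∈ C \ A, k :=
              Finset.sum_le_sum (fun c hc => hk c (Finset.mem_sdiff.1 hc).1)
          _ = _ := by simp
      have u2 : k * q' ≤ k * (C \ A).card := by
        rw [mul_comm k (C \ A).card]; omega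
      exact Nat.le_of_mul_le_mul_left u2 (by omega)
    obtain ⟨Y, hY, hYz⟩ := exists_free_colour G Bm g (C \ A) z (by omega)
    have hYC := (Finset.mem_sdiff.1 hY).1
    have hYA := (Finset.mem_sdiff.1 hY).2
    obtain ⟨p1, p2, p3, p4⟩ := glue f hP (fun _ _ => rfl) (fun _ h => h)
    set h0 : V → K := fun v => if v ∈ B then g v else f v with hh0
    have h0z : h0 z = W := by
      simp only [hh0, hzB, if_false]
      exact hfz
    have hgmem : ∀ v, v ∈ B → v ≠ y1 → g v ∈ C \ A := fun v hv hne' =>
      hgC v (Finset.mem_erase.2 ⟨hne', hv⟩)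
    set h1' : V → K := Function.update h0 z Y with hh1
    have q1 : Proper G (S.erase y1) h1' := by
      apply proper_update
      · exact p1.mono (Finset.erase_subset _ _)
      · intro x hx hxz hxX
        have hx' := Finset.mem_erase.1 hx
        by_cases hxB : x ∈ B
        · simp only [hh0, hxB, if_true] at hxX
          exact hYz x (Finset.mem_erase.2 ⟨hx'.1, hxB⟩) hxX
        · simp only [hh0, hxB, if_false] at hxX
          exfalso
          apply hxB
          exact (hmemB x).2 ⟨hx'.2, hxX ▸ hYA⟩
    set h2' : V → K := Function.update h1' y1 W with hh2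
    have h2y1 : h2' y1 = W := by rw [hh2, Function.update_self]
    have h2z : h2' z = Y := by
      rw [hh2, Function.update_of_ne hzy1ne, hh1, Function.update_self]
    have h2B : ∀ v, v ∈ B → v ≠ y1 → h2' v = g v := by
      intro v hv hvy
      have hvz : v ≠ z := by rintro rfl; exact hzB hv
      rw [hh2, Function.update_of_ne hvy, hh1, Function.update_of_ne hvz]
      simp only [hh0, hv, if_true]
    have h2A : ∀ v, v ∉ B → v ≠ z → h2' v = f v := by
      intro v hv hvz
      have hvy : v ≠ y1 := by rintro rfl; exact hv hy1B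
      rw [hh2, Function.update_of_ne hvy, hh1, Function.update_of_ne hvz]
      simp only [hh0, hv, if_false]
    -- members of a class e ∈ A, e ≠ W of h2' are members of the class of f
    have hback : ∀ e ∈ A, e ≠ W → ∀ x ∈ cls S h2' e, x ∈ cls S f e := by
      intro e he heW x hx
      have hx' := mem_cls.1 hx
      have hxy : x ≠ y1 := by
        rintro rfl; rw [h2y1] at hx'; exact heW hx'.2.symm
      have hxz : x ≠ z := by
        rintro rfl; rw [h2z] at hx'; exact hYA (hx'.2 ▸ he)
      have hxB : x ∉ B := by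
        intro hxB
        have := hgmem x hxB hxy
        rw [← h2B x hxB hxy, hx'.2] at this
        exact (Finset.mem_sdiff.1 this).2 he
      rw [h2A x hxB hxz] at hx'
      exact mem_cls.2 hx'
    have hfwd : ∀ e ∈ A, ∀ x ∈ cls S f e, x ≠ z → x ∈ cls S h2' e := by
      intro e he x hx hxz
      have hx' := mem_cls.1 hx
      have hxB : x ∉ B := by
        intro h
        exact ((hmemB x).1 h).2 (hx'.2 ▸ he)
      refine mem_cls.2 ⟨hx'.1, ?_⟩
      rw [h2A x hxB hxz, hx'.2]
    have hNear : Near G S C n cm Y h2' := by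
      refine ⟨?_, ?_, hcm, hYC, ?_, ?_⟩
      · intro v hv
        by_cases hvy : v = y1
        · rw [hvy, h2y1]; exact hAC hWA
        · by_cases hvz : v = z
          · rw [hvz, h2z]; exact hYC
          · rw [hh2, Function.update_of_ne hvy, hh1, Function.update_of_ne hvz]
            exact p2 v (Finset.mem_erase.2 ⟨hvy, hv⟩)
      · apply proper_update q1
        intro x hx hxy hxW hadj
        by_cases hxz : x = z
        · rw [hxz, hh1, Function.update_self] at hxW
          exact hYA (hxW ▸ hWA)
        · rw [hh1, Function.update_of_ne hxz] at hxW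
          by_cases hxB : x ∈ B
          · simp only [hh0, hxB, if_true] at hxW
            have := hgmem x hxB hxy
            rw [hxW] at this
            exact absurd hWA (Finset.mem_sdiff.1 this).2
          · simp only [hh0, hxB, if_false] at hxW
            exact hxz (hun1 x (mem_cls.2 ⟨hx, hxW⟩) hadj)
      · rintro rfl; exact hYA hcmA
      · intro c hc
        have s1 := cls_update_erase S h1' y1 W hy1S c
        have s2 := cls_update (S.erase y1) h0 z Y (Finset.mem_erase.2 ⟨hzy1ne, hzS⟩) c
        rw [← hh1, h0z] at s2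
        rw [← hh2] at s1
        by_cases hcA : c ∈ A
        · have s3 := p3 c hcA
          have s5 := hclsA c hcA
          omega
        · have s3 := p4 c (Finset.mem_sdiff.2 ⟨hc, hcA⟩)
          rw [if_neg (show c ≠ W by rintro rfl; exact hcA hWA)] at s1 s2
          rw [if_neg (show c ≠ cm by rintro rfl; exact hcA hcmA)]
          omega
    -- accessible classes of h2'
    have hEtrans : ∀ c d, Rs (E G S f) (A.erase W) c d → Rs (E G S h2') C c d := by
      rintro c d ⟨hc, hd, y, hy, hyn⟩
      have hc' := Finset.mem_erase.1 hc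
      have hd' := Finset.mem_erase.1 hd
      refine ⟨hAC hc'.2, hAC hd'.2, y, ?_, ?_⟩
      · apply hfwd c hc'.2 y hy
        rintro rfl
        exact hc'.1 ((mem_cls.1 hy).2.symm.trans hfz)
      · intro x hx
        exact hyn x (hback d hd'.2 hd'.1 x hx)
    have hreach1 : ∀ X ∈ A.erase W, Relation.ReflTransGen (Rs (E G S h2') C) X cm := by
      intro X hX
      exact Relation.ReflTransGen.mono hEtrans _ _ (hterm W hWT X hX)
    have hreachW : Relation.ReflTransGen (Rs (E G S h2') C) W cm := by
      obtain ⟨c1, hc1A, hc1W, ⟨w, hw, hwn⟩, _⟩ := last_visit hWcm (hacc W hWA)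
      refine Relation.ReflTransGen.head ⟨hAC hWA, hAC hc1A, w, ?_, ?_⟩
        (hreach1 c1 (Finset.mem_erase.2 ⟨hc1W, hc1A⟩))
      · apply hfwd W hWA w hw
        rintro rfl
        obtain ⟨x, hx, hxa⟩ := hnm c1 hc1A hc1W
        exact hwn x hx hxa
      · intro x hx
        exact hwn x (hback c1 hc1A hc1W x hx)
    have hreachg : Relation.ReflTransGen (Rs (E G S h2') C) (g y2) cm := by
      have hgy2 := hgmem y2 hy2B hy21
      refine Relation.ReflTransGen.head ⟨(Finset.mem_sdiff.1 hgy2).1, hAC hWA, y2, ?_, ?_⟩ hreachW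
      · exact mem_cls.2 ⟨hy2S, h2B y2 hy2B hy21⟩
      · intro x hx hadj
        have hx' := mem_cls.1 hx
        by_cases hxy : x = y1
        · rw [hxy] at hadj; exact hnadj hadj.symm
        · have hxz : x ≠ z := by
            rintro rfl
            rw [h2z] at hx'
            exact hYA (hx'.2 ▸ hWA)
          have hxB : x ∉ B := by
            intro hxB
            have := hgmem x hxB hxy
            rw [← h2B x hxB hxy, hx'.2] at this
            exact (Finset.mem_sdiff.1 this).2 hWA
          rw [h2A x hxB hxz] at hx'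
          exact hxz (hun2 x (mem_cls.2 hx') hadj)
    have hcardlt : A.card + 1 ≤
        (C.filter (fun c => Relation.ReflTransGen (Rs (E G S h2') C) c cm)).card := by
      have hgy2 := Finset.mem_sdiff.1 (hgmem y2 hy2B hy21)
      have hsub : insert (g y2) A ⊆
          C.filter (fun c => Relation.ReflTransGen (Rs (E G S h2') C) c cm) := by
        intro c hc
        rw [Finset.mem_insert] at hc
        rcases hc with rfl | hc
        · exact Finset.mem_filter.2 ⟨hgy2.1, hreachg⟩
        · by_cases hcW : c = W
          · rw [hcW]; exact Finset.mem_filter.2 ⟨hAC hWA, hreachW⟩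
          · exact Finset.mem_filter.2 ⟨hAC hc, hreach1 c (Finset.mem_erase.2 ⟨hcW, hc⟩)⟩
      have := Finset.card_le_card hsub
      rw [Finset.card_insert_of_notMem hgy2.2] at this
      exact this
    have hAltC : A.card < C.card := by
      apply Finset.card_lt_card
      rw [Finset.ssubset_iff_of_subset hAC]
      exact ⟨cp, hcp, hcpA⟩
    exact ihm _ (by omega) cm Y h2' hNear rfl

theorem partition_exists [Nonempty K] (n : K → ℕ) : ∀ (C : Finset K) (S : Finset V),
    ∑ c ∈ C, n c = S.card →
    ∃ f : V → K, (∀ v ∈ S, f v ∈ C) ∧ ∀ c ∈ C, (cls S f c).card = n c := by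
  intro C
  induction C using Finset.induction_on with
  | empty =>
    intro S hS
    have : S = ∅ := Finset.card_eq_zero.1 (by simpa using hS.symm)
    subst this
    exact ⟨fun _ => Classical.arbitrary K, by simp, by simp⟩
  | insert c C hc ih =>
    intro S hS
    rw [Finset.sum_insert hc] at hS
    obtain ⟨S1, hS1, hS1c⟩ := Finset.exists_subset_card_eq (s := S) (n := n c) (by omega)
    have hcard : (S \ S1).card + S1.card = S.card := Finset.card_sdiff_add_card_eq_card hS1
    obtain ⟨f, hf1, hf2⟩ := ih (S \ S1) (by omega)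
    refine ⟨fun v => if v ∈ S1 then c else f v, ?_, ?_⟩
    · intro v hv
      by_cases h : v ∈ S1
      · simp [h]
      · simp only [h, if_false]
        exact Finset.mem_insert_of_mem (hf1 v (Finset.mem_sdiff.2 ⟨hv, h⟩))
    · intro e he
      by_cases hec : e = c
      · subst hec
        rw [← hS1c]
        congr 1
        ext v
        simp only [mem_cls]
        constructor
        · rintro ⟨h1, h2⟩
          by_contra h
          simp only [h, if_false] at h2
          have := hf1 v (Finset.mem_sdiff.2 ⟨h1, h⟩)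
          rw [h2] at this
          exact hc this
        · intro h
          exact ⟨hS1 h, by simp [h]⟩
      · have heC : e ∈ C := by
          rcases Finset.mem_insert.1 he with h | h
          · exact absurd h hec
          · exact h
        rw [← hf2 e heC]
        congr 1
        ext v
        simp only [mem_cls, Finset.mem_sdiff]
        by_cases h : v ∈ S1
        · simp [h, Ne.symm hec]
        · simp [h]

/-- the graph with the edges at `u` removed -/
def del (G : SimpleGraph V) (u : V) : SimpleGraph V where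
  Adj a b := G.Adj a b ∧ a ≠ u ∧ b ≠ u
  symm := ⟨fun _ _ h => ⟨h.1.symm, h.2.2, h.2.1⟩⟩
  loopless := ⟨fun _ h => G.loopless.irrefl _ h.1⟩

theorem main_col [Nonempty K] (n : K → ℕ) (k : ℕ) : ∀ (N : ℕ) (G : SimpleGraph V) (S : Finset V)
    (C : Finset K) (r : ℕ), pairs G S = N →
    (∀ v ∈ S, dg G S v ≤ r) → (∀ c ∈ C, n c ≤ k) → k * (r + 1) ≤ S.card →
    ∑ c ∈ C, n c = S.card → ∃ f, Target G S C n f := by
  intro N
  induction N using Nat.strong_induction_on with
  | _ N ihN =>
  intro G S C r hN hdeg hk hkr hsum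
  by_cases hedge : ∃ u ∈ S, ∃ v ∈ S, G.Adj u v
  · obtain ⟨u, hu, v, hv, huv⟩ := hedge
    have hlt : pairs (del G u) S < pairs G S := by
      unfold pairs
      apply Finset.card_lt_card
      rw [Finset.ssubset_iff_of_subset]
      · refine ⟨(u, v), Finset.mem_filter.2 ⟨Finset.mem_product.2 ⟨hu, hv⟩, huv⟩, ?_⟩
        intro h
        have := (Finset.mem_filter.1 h).2
        exact this.2.1 rfl
      · intro p hp
        rw [Finset.mem_filter] at hp ⊢
        exact ⟨hp.1, hp.2.1⟩
    obtain ⟨f0, hf0C, hf0P, hf0s⟩ := ihN (pairs (del G u) S) (hN ▸ hlt) (del G u) S C r rfl (by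
      intro x hx
      refine le_trans ?_ (hdeg x hx)
      unfold dg
      apply Finset.card_le_card
      intro y hy
      rw [Finset.mem_filter] at hy ⊢
      exact ⟨hy.1, hy.2.1⟩) hk hkr hsum
    have hk1 : 1 ≤ k := by
      have h1 : 0 < (cls S f0 (f0 u)).card := Finset.card_pos.2 ⟨u, mem_cls.2 ⟨hu, rfl⟩⟩
      rw [hf0s _ (hf0C u hu)] at h1
      have := hk _ (hf0C u hu)
      omega
    have hCr : r + 1 ≤ C.card := by
      have h1 : ∑ c ∈ C, n c ≤ C.card * k := by
        calc ∑ c ∈ C, n c ≤ ∑ c ∈ C, k := Finset.sum_le_sum hk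
          _ = _ := by simp
      have h2 : k * (r + 1) ≤ k * C.card := by
        rw [mul_comm k C.card]; omega
      exact Nat.le_of_mul_le_mul_left h2 (by omega)
    obtain ⟨cp, hcp, hcpn⟩ := exists_free_colour G S f0 C u (by have := hdeg u hu; omega)
    by_cases hcpu : f0 u = cp
    · refine ⟨f0, hf0C, ?_, hf0s⟩
      intro a ha b hb hab
      by_cases hau : a = u
      · rw [hau] at hab ⊢
        intro he
        exact hcpn b hb (he ▸ hcpu) hab
      · by_cases hbu : b = u
        · rw [hbu] at hab ⊢
          intro he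
          exact hcpn a ha (he.trans hcpu) hab.symm
        · exact hf0P a ha b hb ⟨hab, hau, hbu⟩
    · have hNear : Near G S C n (f0 u) cp (Function.update f0 u cp) := by
        refine ⟨?_, ?_, hf0C u hu, hcp, hcpu, ?_⟩
        · intro a ha
          by_cases hau : a = u
          · rw [hau, Function.update_self]; exact hcp
          · rw [Function.update_of_ne hau]; exact hf0C a ha
        · apply proper_update
          · intro a ha b hb hab
            have ha' := Finset.mem_erase.1 ha
            have hb' := Finset.mem_erase.1 hb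
            exact hf0P a ha'.2 b hb'.2 ⟨hab, ha'.1, hb'.1⟩
          · intro x hx _ hxc
            exact hcpn x hx hxc
        · intro c hc
          have h1 := cls_update S f0 u cp hu c
          rw [hf0s c hc] at h1
          exact h1
      refine near_done G S C n r k hdeg hk hkr hsum ?_ _ (f0 u) cp _ hNear rfl
      intro S' C' r' hlt' h1 h2 h3 h4
      exact ihN (pairs G S') (hN ▸ hlt') G S' C' r' rfl h1 h2 h3 h4
  · obtain ⟨f, hf1, hf2⟩ := partition_exists n C S hsum
    refine ⟨f, hf1, ?_, hf2⟩
    intro a ha b hb hab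
    exact absurd ⟨a, ha, b, hb, hab⟩ hedge

end Pool.Agent.V11193.PresCol
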